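import Pool.Agent.Helper18.PV.Abs

/-! Project PV, closeness part: resampling and randomization of one position. -/

set_option autoImplicit false
open MeasureTheory Real Set
open scoped ENNReal

namespace Pool.Agent.Helper18.PV

open Pool.Agent.Helper18.FD (NN NN_pos NN_ge uu cl lm cl_of_mem)

section Res

variable {ι : Type} [DecidableEq ι]

lemma measurable_upd (i : ι) :
    Measurable fun q : (ι → ℝ) × ℝ => Function.update q.1 i q.2 := by
  rw [measurable_pi_iff]
  intro j
  by_cases hj : j = i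
  · subst hj
    simp only [Function.update_self]
    exact measurable_snd
  · simp only [Function.update_of_ne hj]
    exact (measurable_pi_apply j).comp measurable_fst

theorem res_mp (i : ι) :
    MeasurePreserving (fun q : (ι → ℝ) × ℝ => Function.update q.1 i q.2) ((law ι).prod uu) (law ι) := by
  refine ⟨measurable_upd i, ?_⟩
  conv_rhs => unfold law
  apply Measure.eq_infinitePi
  intro s t ht
  rw [Measure.map_apply (measurable_upd i)
    (MeasurableSet.pi (Finset.countable_toSet _) fun j _ => ht j)]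
  by_cases hi : i ∈ s
  · have e : (fun q : (ι → ℝ) × ℝ => Function.update q.1 i q.2) ⁻¹' (Set.pi (s : Set ι) t) =
        Set.pi ((s.erase i : Finset ι) : Set ι) t ×ˢ t i := by
      ext ⟨ω, u⟩
      simp only [Set.mem_preimage, Set.mem_pi, Finset.mem_coe, Set.mem_prod, Finset.mem_erase]
      constructor
      · intro h
        refine ⟨fun j hj => ?_, ?_⟩
        · have h1 := h j hj.2
          rwa [Function.update_of_ne hj.1] at h1
        · have h1 := h i hi
          rwa [Function.update_self] at h1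
      · rintro ⟨h1, h2⟩ j hj
        by_cases hji : j = i
        · subst hji
          rwa [Function.update_self]
        · rw [Function.update_of_ne hji]
          exact h1 j ⟨hji, hj⟩
    rw [e, Measure.prod_prod]
    unfold law
    rw [Measure.infinitePi_pi _ (fun j _ => ht j)]
    exact Finset.prod_erase_mul s (fun j => uu (t j)) hi
  · have e : (fun q : (ι → ℝ) × ℝ => Function.update q.1 i q.2) ⁻¹' (Set.pi (s : Set ι) t) =
        Set.pi (s : Set ι) t ×ˢ univ := by
      ext ⟨ω, u⟩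
      simp only [Set.mem_preimage, Set.mem_pi, Finset.mem_coe, Set.mem_prod, Set.mem_univ, and_true]
      have hne : ∀ j ∈ s, j ≠ i := fun j hj h => hi (h ▸ hj)
      constructor
      · intro h j hj
        have h1 := h j hj
        rwa [Function.update_of_ne (hne j hj)] at h1
      · intro h j hj
        rw [Function.update_of_ne (hne j hj)]
        exact h j hj
    rw [e, Measure.prod_prod, measure_univ, mul_one]
    unfold law
    rw [Measure.infinitePi_pi _ (fun j _ => ht j)]

theorem res1 (i : ι) {F : (ι → ℝ) → ℝ≥0∞} (hF : Measurable F) :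
    ∫⁻ ω, F ω ∂(law ι) = ∫⁻ ω, ∫⁻ u, F (Function.update ω i u) ∂uu ∂(law ι) := by
  rw [← (res_mp i).lintegral_comp hF]
  exact lintegral_prod _ (hF.comp (measurable_upd i)).aemeasurable

theorem res2 (i j : ι) {F : (ι → ℝ) → ℝ≥0∞} (hF : Measurable F) :
    ∫⁻ ω, F ω ∂(law ι) =
      ∫⁻ ω, ∫⁻ u, ∫⁻ v, F (Function.update (Function.update ω i u) j v) ∂uu ∂uu ∂(law ι) := by
  rw [res1 j hF]
  have h1 : Measurable fun ω : ι → ℝ => ∫⁻ v, F (Function.update ω j v) ∂uu :=
    Measurable.lintegral_prod_right' (f := fun q : (ι → ℝ) × ℝ =>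
      F (Function.update q.1 j q.2)) (hF.comp (measurable_upd _))
  exact res1 i h1

end Res

/-- covering of an interval by periods -/
private lemma per_aux (f : Ci → ℝ≥0∞) (a : ℝ) (n : ℕ) :
    ∫⁻ t in Ioc a (a + n), f (t : Ci) = n * ∫⁻ t, f t := by
  induction n with
  | zero => simp
  | succ n ih =>
    have h1 : Ioc a (a + ((n + 1 : ℕ) : ℝ)) = Ioc a (a + n) ∪ Ioc (a + n) (a + n + 1) := by
      rw [Ioc_union_Ioc_eq_Ioc (by linarith [Nat.cast_nonneg (α := ℝ) n]) (by linarith)]
      push_cast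
      rw [add_assoc]
    have h2 : Disjoint (Ioc a (a + n)) (Ioc (a + (n : ℝ)) (a + n + 1)) := Ioc_disjoint_Ioc_of_le le_rfl
    rw [h1, lintegral_union measurableSet_Ioc h2, ih, UnitAddCircle.lintegral_preimage (a + n) f]
    push_cast
    ring

/-- a uniform kick of size `A` makes the law of a position at most `1 + 1/(2A)` times the uniform law -/
theorem rand {A : ℝ} (hA : 0 < A) (g : Ci) {f : Ci → ℝ≥0∞} (hf : Measurable f) :
    ∫⁻ u, f (g + ((A * cl u : ℝ) : Ci)) ∂uu ≤ ENNReal.ofReal (1 + 1 / (2 * A)) * ∫⁻ t, f t := by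
  obtain ⟨f', hf'⟩ : ∃ f' : Ci → ℝ≥0∞, f' = fun t => f (g + t) := ⟨_, rfl⟩
  have hf'm : Measurable f' := by rw [hf']; exact hf.comp (measurable_const_add g)
  have e0 : ∫⁻ t, f t = ∫⁻ t, f' t := by
    rw [hf']
    exact (lintegral_add_left_eq_self f g).symm
  have e1 : ∫⁻ u, f (g + ((A * cl u : ℝ) : Ci)) ∂uu = ∫⁻ u, f' ((A * cl u : ℝ) : Ci) ∂uu := by rw [hf']
  rw [e0, e1]
  have hA2 : 0 < 2 * A := by linarith
  obtain ⟨n, hn⟩ : ∃ n : ℕ, n = ⌈2 * A⌉₊ := ⟨_, rfl⟩
  have hn1 : 2 * A ≤ n := by rw [hn]; exact Nat.le_ceil _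
  have hn2 : (n : ℝ) ≤ 2 * A + 1 := by rw [hn]; exact (Nat.ceil_lt_add_one hA2.le).le
  have e2 : ∫⁻ u, f' ((A * cl u : ℝ) : Ci) ∂uu = 2⁻¹ * ∫⁻ u in Icc (-1 : ℝ) 1, f' ((A * u : ℝ) : Ci) := by
    rw [uu, lintegral_smul_measure, smul_eq_mul]
    congr 1
    refine setLIntegral_congr_fun measurableSet_Icc fun u hu => ?_
    rw [cl_of_mem hu]
  have hg : Measurable fun t : ℝ => (Icc (-A) A).indicator (fun t => f' (t : Ci)) t :=
    (hf'm.comp AddCircle.measurable_mk').indicator measurableSet_Icc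
  have e3 : ∫⁻ t : ℝ, (Icc (-A) A).indicator (fun t => f' (t : Ci)) t =
      ENNReal.ofReal A * ∫⁻ u in Icc (-1 : ℝ) 1, f' ((A * u : ℝ) : Ci) := by
    conv_lhs => rw [← Real.smul_map_volume_mul_left hA.ne']
    rw [lintegral_smul_measure, lintegral_map hg (measurable_const_mul A), abs_of_pos hA, smul_eq_mul]
    congr 1
    rw [← lintegral_indicator measurableSet_Icc]
    refine lintegral_congr fun u => ?_
    by_cases hu : u ∈ Icc (-1 : ℝ) 1
    · rw [indicator_of_mem hu, indicator_of_mem]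
      constructor
      · nlinarith [hu.1]
      · nlinarith [hu.2]
    · rw [indicator_of_notMem hu, indicator_of_notMem]
      intro h
      apply hu
      constructor
      · by_contra h1
        push Not at h1
        nlinarith [h.1]
      · by_contra h1
        push Not at h1
        nlinarith [h.2]
  have e4 : ∫⁻ t : ℝ, (Icc (-A) A).indicator (fun t => f' (t : Ci)) t ≤ n * ∫⁻ t, f' t := by
    rw [lintegral_indicator measurableSet_Icc, ← per_aux f' (-A) n,
      ← Measure.restrict_congr_set (Ioc_ae_eq_Icc (μ := volume) (a := -A) (b := A))]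
    exact lintegral_mono_set (Ioc_subset_Ioc_right (by linarith))
  rw [e3] at e4
  rw [e2]
  have hA0 : ENNReal.ofReal A ≠ 0 := by simpa using hA
  have e5 : ∫⁻ u in Icc (-1 : ℝ) 1, f' ((A * u : ℝ) : Ci) ≤ (ENNReal.ofReal A)⁻¹ * (n * ∫⁻ t, f' t) := by
    rw [mul_comm] at e4
    rw [mul_comm, ← div_eq_mul_inv]
    exact (ENNReal.le_div_iff_mul_le (Or.inl hA0) (Or.inl ENNReal.ofReal_ne_top)).2 e4
  calc 2⁻¹ * ∫⁻ u in Icc (-1 : ℝ) 1, f' ((A * u : ℝ) : Ci)
      ≤ 2⁻¹ * ((ENNReal.ofReal A)⁻¹ * (n * ∫⁻ t, f' t)) := by gcongr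
    _ = (2⁻¹ * (ENNReal.ofReal A)⁻¹ * n) * ∫⁻ t, f' t := by ring
    _ ≤ ENNReal.ofReal (1 + 1 / (2 * A)) * ∫⁻ t, f' t := by
      gcongr
      have h2 : (2 : ℝ≥0∞)⁻¹ = ENNReal.ofReal (2⁻¹) := by
        rw [ENNReal.ofReal_inv_of_pos (by norm_num), ENNReal.ofReal_ofNat]
      rw [h2, ← ENNReal.ofReal_inv_of_pos hA, ← ENNReal.ofReal_natCast, ← ENNReal.ofReal_mul (by norm_num),
        ← ENNReal.ofReal_mul (by positivity)]
      apply ENNReal.ofReal_le_ofReal
      have : (1 : ℝ) + 1 / (2 * A) = 2⁻¹ * A⁻¹ * (2 * A + 1) := by field_simp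
      rw [this]
      gcongr

/-- the same for a kick of any sign -/
theorem rand' {A : ℝ} (hA : A ≠ 0) (g : Ci) {f : Ci → ℝ≥0∞} (hf : Measurable f) :
    ∫⁻ u, f (g + ((A * cl u : ℝ) : Ci)) ∂uu ≤ ENNReal.ofReal (1 + 1 / (2 * |A|)) * ∫⁻ t, f t := by
  rcases lt_or_gt_of_ne hA with h | h
  · have hn : Measurable fun t : Ci => f (-t) := hf.comp measurable_neg
    have h1 := rand (A := -A) (by linarith) (-g) hn
    have h2 : ∫⁻ t : Ci, f (-t) = ∫⁻ t : Ci, f t := lintegral_neg_eq_self f
    rw [h2, ← abs_of_neg h] at h1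
    refine le_trans (le_of_eq ?_) h1
    refine lintegral_congr fun u => ?_
    congr 1
    rw [neg_add, neg_neg, ← AddCircle.coe_neg, abs_of_neg h]
    congr 2
    ring
  · rw [abs_of_pos h]
    exact rand h g hf

/-- probability of a small interval after a kick -/
theorem rand_ball {A ρ : ℝ} (hA : A ≠ 0) (g x : Ci) :
    uu {u | dist (g + ((A * cl u : ℝ) : Ci)) x < ρ} ≤ ENNReal.ofReal (1 + 1 / (2 * |A|)) * ENNReal.ofReal (2 * ρ) := by
  have hm : Measurable fun t : Ci => (Metric.ball x ρ).indicator (1 : Ci → ℝ≥0∞) t :=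
    measurable_one.indicator measurableSet_ball
  have h1 := rand' hA g hm
  have h2 : ∫⁻ t, (Metric.ball x ρ).indicator (1 : Ci → ℝ≥0∞) t = volume (Metric.ball x ρ) :=
    lintegral_indicator_one measurableSet_ball
  rw [h2] at h1
  have hcl : Measurable cl := by
    unfold cl
    exact measurable_const.max (measurable_const.min measurable_id)
  have hm3 : MeasurableSet {u : ℝ | dist (g + ((A * cl u : ℝ) : Ci)) x < ρ} := by
    have h5 : Measurable fun u : ℝ => g + ((A * cl u : ℝ) : Ci) :=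
      (AddCircle.measurable_mk'.comp (hcl.const_mul A)).const_add g
    exact measurableSet_lt (h5.dist measurable_const) measurable_const
  have h3 : uu {u | dist (g + ((A * cl u : ℝ) : Ci)) x < ρ} =
      ∫⁻ u, (Metric.ball x ρ).indicator (1 : Ci → ℝ≥0∞) (g + ((A * cl u : ℝ) : Ci)) ∂uu := by
    rw [← lintegral_indicator_one hm3]
    rfl
  rw [h3]
  refine h1.trans ?_
  gcongr
  exact vol_ball x ρ

end Pool.Agent.Helper18.PV
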