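import Pool.Agent.Helper18.PV.Dec

/-! Project PV, closeness part: a double return across an isolated middle pair, and the recursion for the closeness probabilities. -/

set_option autoImplicit false
open MeasureTheory Real Set
open scoped ENNReal

namespace Pool.Agent.Helper18.PV

open Pool.Agent.Helper18.FD (NN NN_pos NN_ge uu cl lm cl_of_mem)

variable {ι : Type} [DecidableEq ι] {K : Sy ι} {B s : ℝ}

/-- the condition on (noise, past pair, future pair) -/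
def Sd (K : Sy ι) (m n j l : ℕ) (ρ σ : ℝ) : Set ((ι → ℝ) × (T2 × T2)) :=
  {q | (2 / (NN l : ℝ) ≤ dist q.2.1.2 q.2.2.2 ∧
    (∀ i, 1 ≤ i → i < m → 2 / (NN l : ℝ) ≤ dist q.2.1.2 (wd K q.1 q.2.1 i) ∧
      2 / (NN l : ℝ) ≤ dist q.2.2.2 (wd K q.1 q.2.1 i)) ∧
    ∀ i, 1 ≤ i → i < n + 1 → 2 / (NN l : ℝ) ≤ dist q.2.1.2 (wd K q.1 q.2.2 i) ∧
      2 / (NN l : ℝ) ≤ dist q.2.2.2 (wd K q.1 q.2.2 i)) ∧
    dist (wd K q.1 q.2.2 (n + 1)) (wd K q.1 q.2.1 m) < ρ ∧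
    dist (wd K q.1 q.2.2 n) (wd K q.1 q.2.1 (m - j)) < σ}

lemma meas_Sd (hK : K.Ok B s) (m n j l : ℕ) (ρ σ : ℝ) : MeasurableSet (Sd K m n j l ρ σ) := by
  have ha : Measurable fun q : (ι → ℝ) × (T2 × T2) => (q.1, q.2.1) := by fun_prop
  have hb : Measurable fun q : (ι → ℝ) × (T2 × T2) => (q.1, q.2.2) := by fun_prop
  have wa : ∀ i, Measurable fun q : (ι → ℝ) × (T2 × T2) => wd K q.1 q.2.1 i := fun i => (meas_wd hK i).comp ha
  have wb : ∀ i, Measurable fun q : (ι → ℝ) × (T2 × T2) => wd K q.1 q.2.2 i := fun i => (meas_wd hK i).comp hb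
  have a2 : Measurable fun q : (ι → ℝ) × (T2 × T2) => q.2.1.2 := by fun_prop
  have b2 : Measurable fun q : (ι → ℝ) × (T2 × T2) => q.2.2.2 := by fun_prop
  have c1 : MeasurableSet {q : (ι → ℝ) × (T2 × T2) | 2 / (NN l : ℝ) ≤ dist q.2.1.2 q.2.2.2} :=
    measurableSet_le measurable_const (a2.dist b2)
  have c2 : MeasurableSet {q : (ι → ℝ) × (T2 × T2) | ∀ i, 1 ≤ i → i < m →
      2 / (NN l : ℝ) ≤ dist q.2.1.2 (wd K q.1 q.2.1 i) ∧
      2 / (NN l : ℝ) ≤ dist q.2.2.2 (wd K q.1 q.2.1 i)} := by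
    simp only [ofPred_forall]
    exact MeasurableSet.iInter fun i => MeasurableSet.iInter fun _ => MeasurableSet.iInter fun _ =>
      (measurableSet_le measurable_const (a2.dist (wa i))).inter
        (measurableSet_le measurable_const (b2.dist (wa i)))
  have c3 : MeasurableSet {q : (ι → ℝ) × (T2 × T2) | ∀ i, 1 ≤ i → i < n + 1 →
      2 / (NN l : ℝ) ≤ dist q.2.1.2 (wd K q.1 q.2.2 i) ∧
      2 / (NN l : ℝ) ≤ dist q.2.2.2 (wd K q.1 q.2.2 i)} := by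
    simp only [ofPred_forall]
    exact MeasurableSet.iInter fun i => MeasurableSet.iInter fun _ => MeasurableSet.iInter fun _ =>
      (measurableSet_le measurable_const (a2.dist (wb i))).inter
        (measurableSet_le measurable_const (b2.dist (wb i)))
  have c4 : MeasurableSet {q : (ι → ℝ) × (T2 × T2) | dist (wd K q.1 q.2.2 (n + 1)) (wd K q.1 q.2.1 m) < ρ} :=
    measurableSet_lt ((wb _).dist (wa _)) measurable_const
  have c5 : MeasurableSet {q : (ι → ℝ) × (T2 × T2) | dist (wd K q.1 q.2.2 n) (wd K q.1 q.2.1 (m - j)) < σ} :=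
    measurableSet_lt ((wb _).dist (wa _)) measurable_const
  exact (c1.inter (c2.inter c3)).inter (c4.inter c5)

omit [DecidableEq ι] in
/-- the condition does not feel the kicks at two places far from the orbits -/
lemma Sd_congr {m n j l : ℕ} {ρ σ : ℝ} {ω ω' : ι → ℝ} {α β : T2}
    (ha : ∀ i, 1 ≤ i → i < m → K.F ω' (wd K ω α i) = K.F ω (wd K ω α i))
    (hb : ∀ i, 1 ≤ i → i < n + 1 → K.F ω' (wd K ω β i) = K.F ω (wd K ω β i))
    (h : (ω, (α, β)) ∈ Sd K m n j l ρ σ) : (ω', (α, β)) ∈ Sd K m n j l ρ σ := by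
  have e1 := wd_congr ha
  have e2 := wd_congr hb
  obtain ⟨⟨h1, h2, h3⟩, h4, h5⟩ := h
  refine ⟨⟨h1, fun i hi hi' => ?_, fun i hi hi' => ?_⟩, ?_, ?_⟩
  · show 2 / (NN l : ℝ) ≤ dist α.2 (wd K ω' α i) ∧ 2 / (NN l : ℝ) ≤ dist β.2 (wd K ω' α i)
    rw [e1 i hi'.le]
    exact h2 i hi hi'
  · show 2 / (NN l : ℝ) ≤ dist α.2 (wd K ω' β i) ∧ 2 / (NN l : ℝ) ≤ dist β.2 (wd K ω' β i)
    rw [e2 i hi'.le]
    exact h3 i hi hi'
  · show dist (wd K ω' β (n + 1)) (wd K ω' α m) < ρ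
    rw [e1 m le_rfl, e2 (n + 1) le_rfl]
    exact h4
  · show dist (wd K ω' β n) (wd K ω' α (m - j)) < σ
    rw [e1 (m - j) (Nat.sub_le _ _), e2 n (Nat.le_succ _)]
    exact h5

/-- measure of the condition for independent uniform pairs -/
lemma vol_Sd (hK : K.Ok B s) (m n j l : ℕ) {ρ σ : ℝ} (hρ : 0 < ρ) :
    ((law ι).prod (volume : Measure (T2 × T2))) (Sd K m n j l ρ σ) ≤ ENNReal.ofReal (4 * ρ * σ) := by
  rw [Measure.prod_apply (meas_Sd hK m n j l ρ σ)]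
  have h1 : ∀ ω : ι → ℝ, (volume : Measure (T2 × T2)) (Prod.mk ω ⁻¹' Sd K m n j l ρ σ) ≤
      ENNReal.ofReal (4 * ρ * σ) := by
    intro ω
    have hm : MeasurableSet (Prod.mk ω ⁻¹' Sd K m n j l ρ σ) := measurable_prodMk_left (meas_Sd hK m n j l ρ σ)
    rw [Measure.volume_eq_prod, Measure.prod_apply hm]
    have h2 : ∀ α : T2, (volume : Measure T2) (Prod.mk α ⁻¹' (Prod.mk ω ⁻¹' Sd K m n j l ρ σ)) ≤
        ENNReal.ofReal (4 * ρ * σ) := by
      intro α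
      have h3 : Prod.mk α ⁻¹' (Prod.mk ω ⁻¹' Sd K m n j l ρ σ) ⊆
          (tw K ω)^[n] ⁻¹' (Metric.ball (wd K ω α m) ρ ×ˢ Metric.ball (wd K ω α (m - j)) σ) := by
        intro β hβ
        obtain ⟨_, h4, h5⟩ := hβ
        rw [mem_preimage, iter_eq]
        exact ⟨h4, h5⟩
      refine (measure_mono h3).trans ?_
      rw [(tw_iter_mp hK ω n).measure_preimage
        (measurableSet_ball.prod measurableSet_ball).nullMeasurableSet, Measure.volume_eq_prod,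
        Measure.prod_prod]
      calc volume (Metric.ball (wd K ω α m) ρ) * volume (Metric.ball (wd K ω α (m - j)) σ)
          ≤ ENNReal.ofReal (2 * ρ) * ENNReal.ofReal (2 * σ) := mul_le_mul' (vol_ball _ _) (vol_ball _ _)
        _ = ENNReal.ofReal (4 * ρ * σ) := by
          rw [← ENNReal.ofReal_mul (by positivity)]
          congr 1
          ring
    calc ∫⁻ α : T2, (volume : Measure T2) (Prod.mk α ⁻¹' (Prod.mk ω ⁻¹' Sd K m n j l ρ σ))
        ≤ ∫⁻ _α : T2, ENNReal.ofReal (4 * ρ * σ) := lintegral_mono h2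
      _ = _ := by rw [lintegral_const, measure_univ, mul_one]
  calc ∫⁻ ω, (volume : Measure (T2 × T2)) (Prod.mk ω ⁻¹' Sd K m n j l ρ σ) ∂(law ι)
      ≤ ∫⁻ _ω, ENNReal.ofReal (4 * ρ * σ) ∂(law ι) := lintegral_mono h1
    _ = _ := by rw [lintegral_const, measure_univ, mul_one]

/-- double return across an isolated pair -/
theorem double (hK : K.Ok B s) {m n j : ℕ} (l : ℕ) {ρ σ : ℝ} (hj : j ≤ m) (hρ : 0 < ρ) :
    mu ι {p | dist (wd K p.1 p.2 (m + n + 2)) (wd K p.1 p.2 0) < ρ ∧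
        dist (wd K p.1 p.2 (m + n + 1)) (wd K p.1 p.2 j) < σ ∧
        ∀ i, 1 ≤ i → i < m + n + 2 →
          (i ≠ m → 2 / (NN l : ℝ) ≤ dist (wd K p.1 p.2 m) (wd K p.1 p.2 i)) ∧
          (i ≠ m + 1 → 2 / (NN l : ℝ) ≤ dist (wd K p.1 p.2 (m + 1)) (wd K p.1 p.2 i))} ≤
      dn K l ^ 2 * ENNReal.ofReal (4 * ρ * σ) := by
  have hS := meas_Sd hK m n j l ρ σ
  have hpre : MeasurableSet {p : (ι → ℝ) × T2 | (p.1, (tw K p.1 p.2.swap, tw K p.1 p.2)) ∈ Sd K m n j l ρ σ} := by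
    have e1 : Measurable fun p : (ι → ℝ) × T2 => (p.1, p.2.swap) :=
      measurable_fst.prodMk (measurable_swap.comp measurable_snd)
    exact (measurable_fst.prodMk (((meas_tw hK).comp e1).prodMk (meas_tw hK))) hS
  have hsub : {p | dist (wd K p.1 p.2 (m + n + 2)) (wd K p.1 p.2 0) < ρ ∧
        dist (wd K p.1 p.2 (m + n + 1)) (wd K p.1 p.2 j) < σ ∧
        ∀ i, 1 ≤ i → i < m + n + 2 →
          (i ≠ m → 2 / (NN l : ℝ) ≤ dist (wd K p.1 p.2 m) (wd K p.1 p.2 i)) ∧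
          (i ≠ m + 1 → 2 / (NN l : ℝ) ≤ dist (wd K p.1 p.2 (m + 1)) (wd K p.1 p.2 i))} ⊆
      ((sk K)^[m]) ⁻¹' {p : (ι → ℝ) × T2 | (p.1, (tw K p.1 p.2.swap, tw K p.1 p.2)) ∈ Sd K m n j l ρ σ} := by
    rintro ⟨ω, z⟩ ⟨h1, h2, h3⟩
    simp only at h1 h2 h3
    rw [mem_preimage, sk_iter, iter_eq]
    have ea : ∀ i ≤ m, wd K ω (tw K ω (wd K ω z m, wd K ω z (m + 1))) i = wd K ω z (m - i) := by
      intro i hi
      rw [wd_tw, wd_rev ω z m (i + 1) (by omega)]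
      congr 1
      omega
    have eb : ∀ i, wd K ω (tw K ω (wd K ω z (m + 1), wd K ω z m)) i = wd K ω z (m + 1 + i) := by
      intro i
      have h4 := wd_iter (K := K) ω z m (i + 1)
      rw [iter_eq] at h4
      rw [wd_tw, h4]
      congr 1
      omega
    have hsw : Prod.swap (wd K ω z (m + 1), wd K ω z m) = (wd K ω z m, wd K ω z (m + 1)) := rfl
    show (ω, (tw K ω (Prod.swap (wd K ω z (m + 1), wd K ω z m)), tw K ω (wd K ω z (m + 1), wd K ω z m))) ∈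
      Sd K m n j l ρ σ
    rw [hsw]
    refine ⟨⟨?_, fun i hi hi' => ?_, fun i hi hi' => ?_⟩, ?_, ?_⟩
    · show 2 / (NN l : ℝ) ≤ dist (wd K ω z m) (wd K ω z (m + 1))
      exact (h3 (m + 1) (by omega) (by omega)).1 (by omega)
    · show 2 / (NN l : ℝ) ≤ dist (wd K ω z m) (wd K ω (tw K ω (wd K ω z m, wd K ω z (m + 1))) i) ∧
        2 / (NN l : ℝ) ≤ dist (wd K ω z (m + 1)) (wd K ω (tw K ω (wd K ω z m, wd K ω z (m + 1))) i)
      rw [ea i hi'.le]
      have h5 := h3 (m - i) (by omega) (by omega)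
      exact ⟨h5.1 (by omega), h5.2 (by omega)⟩
    · show 2 / (NN l : ℝ) ≤ dist (wd K ω z m) (wd K ω (tw K ω (wd K ω z (m + 1), wd K ω z m)) i) ∧
        2 / (NN l : ℝ) ≤ dist (wd K ω z (m + 1)) (wd K ω (tw K ω (wd K ω z (m + 1), wd K ω z m)) i)
      rw [eb i]
      have h5 := h3 (m + 1 + i) (by omega) (by omega)
      exact ⟨h5.1 (by omega), h5.2 (by omega)⟩
    · show dist (wd K ω (tw K ω (wd K ω z (m + 1), wd K ω z m)) (n + 1))
        (wd K ω (tw K ω (wd K ω z m, wd K ω z (m + 1))) m) < ρ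
      rw [ea m le_rfl, eb, Nat.sub_self]
      rw [show m + 1 + (n + 1) = m + n + 2 by ring]
      exact h1
    · show dist (wd K ω (tw K ω (wd K ω z (m + 1), wd K ω z m)) n)
        (wd K ω (tw K ω (wd K ω z m, wd K ω z (m + 1))) (m - j)) < σ
      rw [ea (m - j) (Nat.sub_le _ _), eb, Nat.sub_sub_self hj]
      rw [show m + 1 + n = m + n + 1 by ring]
      exact h2
  refine (measure_mono hsub).trans ?_
  rw [stat_set hK m hpre]
  refine (dec hK l hS (fun ω α β h => h.1.1) ?_ ?_).trans ?_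
  · intro ω α β u h
    refine Sd_congr ?_ ?_ h
    · intro i hi hi'
      exact hK.off l ω u _ _ (h.1.2.1 i hi hi').1
    · intro i hi hi'
      exact hK.off l ω u _ _ (h.1.2.2 i hi hi').1
  · intro ω α β u h
    refine Sd_congr ?_ ?_ h
    · intro i hi hi'
      exact hK.off l ω u _ _ (h.1.2.1 i hi hi').2
    · intro i hi hi'
      exact hK.off l ω u _ _ (h.1.2.2 i hi hi').2
  · gcongr
    exact vol_Sd hK m n j l hρ

omit [DecidableEq ι] in
private lemma union_le {J : Finset ℕ} {k : ℕ} (hJ : J ⊆ Finset.range k) {S : ℕ → Set ((ι → ℝ) × T2)} {c : ℝ}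
    (h : ∀ j ∈ J, mu ι (S j) ≤ ENNReal.ofReal c) :
    mu ι (⋃ j ∈ J, S j) ≤ ENNReal.ofReal (k * c) := by
  calc mu ι (⋃ j ∈ J, S j) ≤ ∑ j ∈ J, mu ι (S j) := measure_biUnion_finset_le _ _
    _ ≤ ∑ _j ∈ J, ENNReal.ofReal c := Finset.sum_le_sum h
    _ = J.card * ENNReal.ofReal c := by rw [Finset.sum_const, nsmul_eq_mul]
    _ ≤ k * ENNReal.ofReal c := by
      gcongr
      have := Finset.card_le_card hJ
      rwa [Finset.card_range] at this
    _ = ENNReal.ofReal (k * c) := by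
      rw [ENNReal.ofReal_mul (Nat.cast_nonneg k), ENNReal.ofReal_natCast]

/-- closeness of two different times, in any order -/
lemma stat3 (hK : K.Ok B s) {i j : ℕ} (h : i ≠ j) {ρ b : ℝ} {G : ℕ} (hi : i ≤ j + G) (hj : j ≤ i + G)
    (hb : ∀ g, 1 ≤ g → g ≤ G → qq K g ρ ≤ b) :
    mu ι {p | dist (wd K p.1 p.2 i) (wd K p.1 p.2 j) < ρ} ≤ ENNReal.ofReal b := by
  rcases Nat.lt_or_gt_of_ne h with h1 | h1
  · rw [stat2 hK h1]
    exact ENNReal.ofReal_le_ofReal (hb _ (by omega) (by omega))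
  · have h2 : {p : (ι → ℝ) × T2 | dist (wd K p.1 p.2 i) (wd K p.1 p.2 j) < ρ} =
        {p | dist (wd K p.1 p.2 j) (wd K p.1 p.2 i) < ρ} := by
      ext p
      simp only [mem_ofPred_eq]
      rw [dist_comm]
    rw [h2, stat2 hK h1]
    exact ENNReal.ofReal_le_ofReal (hb _ (by omega) (by omega))

lemma dn_le (hK : K.Ok B s) (l : ℕ) : dn K l ≤ ENNReal.ofReal (B * (NN l : ℝ) ^ (1 + s)) :=
  ENNReal.ofReal_le_ofReal (hK.amp_bd l)

/-- the recursion -/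
theorem qrec (hK : K.Ok B s) {k : ℕ} (hk : 3 ≤ k) (l l' : ℕ) {ρ : ℝ} (hρ : 0 < ρ) :
    ∃ g g' : ℕ, 1 ≤ g ∧ g ≤ k / 2 + 1 ∧ 1 ≤ g' ∧ g' ≤ k / 2 + 1 ∧
      qq K k ρ ≤ 2 * ρ * (B * (NN l : ℝ) ^ (1 + s)) +
        8 * k * ρ * (B * (NN l' : ℝ) ^ (1 + s)) ^ 2 / NN l +
        k * qq K g (2 / NN l) + 2 * k * qq K g' (2 / NN l') := by
  have hne : (Finset.Icc 1 (k / 2 + 1)).Nonempty := ⟨1, by rw [Finset.mem_Icc]; omega⟩
  obtain ⟨g, hg, hgm⟩ := Finset.exists_max_image (Finset.Icc 1 (k / 2 + 1)) (fun g => qq K g (2 / NN l)) hne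
  obtain ⟨g', hg', hgm'⟩ := Finset.exists_max_image (Finset.Icc 1 (k / 2 + 1)) (fun g => qq K g (2 / NN l')) hne
  rw [Finset.mem_Icc] at hg hg'
  refine ⟨g, g', hg.1, hg.2, hg'.1, hg'.2, ?_⟩
  have hb : ∀ i, 1 ≤ i → i ≤ k / 2 + 1 → qq K i (2 / NN l) ≤ qq K g (2 / NN l) := fun i h1 h2 =>
    hgm i (Finset.mem_Icc.2 ⟨h1, h2⟩)
  have hb' : ∀ i, 1 ≤ i → i ≤ k / 2 + 1 → qq K i (2 / NN l') ≤ qq K g' (2 / NN l') := fun i h1 h2 =>
    hgm' i (Finset.mem_Icc.2 ⟨h1, h2⟩)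
  have hB0 : 0 < B := lt_of_lt_of_le one_pos hK.hB
  have hN : (0 : ℝ) < NN l := by exact_mod_cast NN_pos l
  have hN' : (0 : ℝ) < NN l' := by exact_mod_cast NN_pos l'
  have hq := qq_nonneg (K := K) g (2 / NN l)
  have hq' := qq_nonneg (K := K) g' (2 / NN l')
  obtain ⟨M, hM⟩ : ∃ M, M = (k - 1) / 2 := ⟨_, rfl⟩
  obtain ⟨n, hn⟩ : ∃ n, n = k - M - 2 := ⟨_, rfl⟩
  have hkn : M + n + 2 = k := by omega
  have hM1 : 1 ≤ M := by omega
  -- the events
  obtain ⟨U1, hU1⟩ : ∃ U1 : Set ((ι → ℝ) × T2), U1 = {p | dist (wd K p.1 p.2 ((k - 2) + 2)) (wd K p.1 p.2 0) < ρ ∧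
      ∀ j, 1 ≤ j → j < (k - 2) + 1 → 2 / (NN l : ℝ) ≤ dist (wd K p.1 p.2 ((k - 2) + 1)) (wd K p.1 p.2 j)} := ⟨_, rfl⟩
  obtain ⟨U2, hU2⟩ : ∃ U2 : Set ((ι → ℝ) × T2), U2 = ⋃ j ∈ (Finset.range k).filter (fun j => M < j ∧ j < k - 1),
      {p | dist (wd K p.1 p.2 (k - 1)) (wd K p.1 p.2 j) < 2 / NN l} := ⟨_, rfl⟩
  obtain ⟨U3, hU3⟩ : ∃ U3 : Set ((ι → ℝ) × T2), U3 = ⋃ j ∈ (Finset.range k).filter (fun j => 1 ≤ j ∧ j ≠ M),
      {p | dist (wd K p.1 p.2 M) (wd K p.1 p.2 j) < 2 / NN l'} := ⟨_, rfl⟩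
  obtain ⟨U4, hU4⟩ : ∃ U4 : Set ((ι → ℝ) × T2), U4 = ⋃ j ∈ (Finset.range k).filter (fun j => 1 ≤ j ∧ j ≠ M + 1),
      {p | dist (wd K p.1 p.2 (M + 1)) (wd K p.1 p.2 j) < 2 / NN l'} := ⟨_, rfl⟩
  obtain ⟨U5, hU5⟩ : ∃ U5 : Set ((ι → ℝ) × T2), U5 = ⋃ j ∈ (Finset.range k).filter (fun j => j ≤ M),
      {p | dist (wd K p.1 p.2 (M + n + 2)) (wd K p.1 p.2 0) < ρ ∧
        dist (wd K p.1 p.2 (M + n + 1)) (wd K p.1 p.2 j) < 2 / NN l ∧
        ∀ i, 1 ≤ i → i < M + n + 2 →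
          (i ≠ M → 2 / (NN l' : ℝ) ≤ dist (wd K p.1 p.2 M) (wd K p.1 p.2 i)) ∧
          (i ≠ M + 1 → 2 / (NN l' : ℝ) ≤ dist (wd K p.1 p.2 (M + 1)) (wd K p.1 p.2 i))} := ⟨_, rfl⟩
  have m1 : mu ι U1 ≤ ENNReal.ofReal (2 * ρ * (B * (NN l : ℝ) ^ (1 + s))) := by
    rw [hU1]
    refine (kick1 hK (k - 2) l ρ).trans ?_
    have e := ENNReal.ofReal_mul (p := B * (NN l : ℝ) ^ (1 + s)) (q := 2 * ρ) (by positivity)
    rw [mul_comm (2 * ρ), e]
    exact mul_le_mul_left (dn_le hK l) _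
  have m2 : mu ι U2 ≤ ENNReal.ofReal (k * qq K g (2 / NN l)) := by
    rw [hU2]
    refine union_le (Finset.filter_subset _ _) fun j hj => ?_
    obtain ⟨h1, h2, h3⟩ := Finset.mem_filter.1 hj
    exact stat3 hK (by omega) (G := k / 2 + 1) (by omega) (by omega) hb
  have m3 : mu ι U3 ≤ ENNReal.ofReal (k * qq K g' (2 / NN l')) := by
    rw [hU3]
    refine union_le (Finset.filter_subset _ _) fun j hj => ?_
    obtain ⟨h1, h2, h3⟩ := Finset.mem_filter.1 hj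
    rw [Finset.mem_range] at h1
    exact stat3 hK (by omega) (G := k / 2 + 1) (by omega) (by omega) hb'
  have m4 : mu ι U4 ≤ ENNReal.ofReal (k * qq K g' (2 / NN l')) := by
    rw [hU4]
    refine union_le (Finset.filter_subset _ _) fun j hj => ?_
    obtain ⟨h1, h2, h3⟩ := Finset.mem_filter.1 hj
    rw [Finset.mem_range] at h1
    exact stat3 hK (by omega) (G := k / 2 + 1) (by omega) (by omega) hb'
  have m5 : mu ι U5 ≤ ENNReal.ofReal (k * (8 * ρ * (B * (NN l' : ℝ) ^ (1 + s)) ^ 2 / NN l)) := by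
    rw [hU5]
    refine union_le (Finset.filter_subset _ _) fun j hj => ?_
    obtain ⟨h1, h2⟩ := Finset.mem_filter.1 hj
    refine (double hK l' (σ := 2 / NN l) h2 hρ).trans ?_
    have e : 8 * ρ * (B * (NN l' : ℝ) ^ (1 + s)) ^ 2 / NN l =
        (B * (NN l' : ℝ) ^ (1 + s)) ^ 2 * (4 * ρ * (2 / NN l)) := by
      field_simp
      ring
    have e2 := ENNReal.ofReal_mul (p := (B * (NN l' : ℝ) ^ (1 + s)) ^ 2) (q := 4 * ρ * (2 / NN l)) (by positivity)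
    rw [e, e2, ENNReal.ofReal_pow (by positivity)]
    exact mul_le_mul_left (pow_le_pow_left' (dn_le hK l') 2) _
  have hcov : {p : (ι → ℝ) × T2 | dist (wd K p.1 p.2 k) (wd K p.1 p.2 0) < ρ} ⊆ U1 ∪ (U2 ∪ (U3 ∪ (U4 ∪ U5))) := by
    rintro ⟨ω, z⟩ hp
    simp only [mem_ofPred_eq] at hp
    by_contra hc
    simp only [mem_union, not_or] at hc
    obtain ⟨c1, c2, c3, c4, c5⟩ := hc
    have d1 : ∃ j, 1 ≤ j ∧ j < k - 1 ∧ dist (wd K ω z (k - 1)) (wd K ω z j) < 2 / NN l := by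
      by_contra hd
      push Not at hd
      apply c1
      rw [hU1]
      refine ⟨?_, fun j h1 h2 => ?_⟩
      · show dist (wd K ω z ((k - 2) + 2)) (wd K ω z 0) < ρ
        rw [show k - 2 + 2 = k by omega]
        exact hp
      · show 2 / (NN l : ℝ) ≤ dist (wd K ω z ((k - 2) + 1)) (wd K ω z j)
        rw [show k - 2 + 1 = k - 1 by omega]
        exact hd j h1 (by omega)
    obtain ⟨j, hj1, hj2, hj3⟩ := d1
    have hjM : j ≤ M := by
      by_contra hjM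
      apply c2
      rw [hU2]
      simp only [mem_iUnion]
      exact ⟨j, Finset.mem_filter.2 ⟨Finset.mem_range.2 (by omega), by omega, hj2⟩, hj3⟩
    apply c5
    rw [hU5]
    simp only [mem_iUnion]
    refine ⟨j, Finset.mem_filter.2 ⟨Finset.mem_range.2 (by omega), hjM⟩, ?_, ?_, fun i hi1 hi2 => ⟨fun hi3 => ?_, fun hi3 => ?_⟩⟩
    · show dist (wd K ω z (M + n + 2)) (wd K ω z 0) < ρ
      rw [hkn]
      exact hp
    · show dist (wd K ω z (M + n + 1)) (wd K ω z j) < 2 / NN l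
      rw [show M + n + 1 = k - 1 by omega]
      exact hj3
    · show 2 / (NN l' : ℝ) ≤ dist (wd K ω z M) (wd K ω z i)
      by_contra hd
      push Not at hd
      apply c3
      rw [hU3]
      simp only [mem_iUnion]
      exact ⟨i, Finset.mem_filter.2 ⟨Finset.mem_range.2 (by omega), hi1, hi3⟩, hd⟩
    · show 2 / (NN l' : ℝ) ≤ dist (wd K ω z (M + 1)) (wd K ω z i)
      by_contra hd
      push Not at hd
      apply c4
      rw [hU4]
      simp only [mem_iUnion]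
      exact ⟨i, Finset.mem_filter.2 ⟨Finset.mem_range.2 (by omega), hi1, hi3⟩, hd⟩
  refine ENNReal.toReal_le_of_le_ofReal (by positivity) ?_
  calc mu ι {p : (ι → ℝ) × T2 | dist (wd K p.1 p.2 k) (wd K p.1 p.2 0) < ρ}
      ≤ mu ι (U1 ∪ (U2 ∪ (U3 ∪ (U4 ∪ U5)))) := measure_mono hcov
    _ ≤ mu ι U1 + (mu ι U2 + (mu ι U3 + (mu ι U4 + mu ι U5))) :=
        (measure_union_le _ _).trans (by
          gcongr
          exact (measure_union_le _ _).trans (by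
            gcongr
            exact (measure_union_le _ _).trans (by
              gcongr
              exact measure_union_le _ _)))
    _ ≤ ENNReal.ofReal (2 * ρ * (B * (NN l : ℝ) ^ (1 + s))) + (ENNReal.ofReal (k * qq K g (2 / NN l)) +
        (ENNReal.ofReal (k * qq K g' (2 / NN l')) + (ENNReal.ofReal (k * qq K g' (2 / NN l')) +
          ENNReal.ofReal (k * (8 * ρ * (B * (NN l' : ℝ) ^ (1 + s)) ^ 2 / NN l))))) := by gcongr
    _ = ENNReal.ofReal (2 * ρ * (B * (NN l : ℝ) ^ (1 + s)) + (k * qq K g (2 / NN l) +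
        (k * qq K g' (2 / NN l') + (k * qq K g' (2 / NN l') +
          k * (8 * ρ * (B * (NN l' : ℝ) ^ (1 + s)) ^ 2 / NN l))))) := by
        rw [ENNReal.ofReal_add (by positivity) (by positivity), ENNReal.ofReal_add (by positivity) (by positivity),
          ENNReal.ofReal_add (by positivity) (by positivity), ENNReal.ofReal_add (by positivity) (by positivity)]
    _ = _ := by
        congr 1
        ring

end Pool.Agent.Helper18.PV
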