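import Pool.Agent.Helper18.FD.Defs

/-! Project PV, closeness recursion for potentials (real analysis only).

`q k ρ` stands for the probability of `|x_k - x_0| < ρ`. Input: `q 1 ρ, q 2 ρ ≤ 3 ρ`; for `k ≥ 3` and all levels `l, l'`
`q k ρ ≤ 2 ρ B N^(1+s) + 8 k ρ B² N'^(2+2s)/N + k q g (2/N) + 2 k q g' (2/N')` with `1 ≤ g, g' ≤ k/2 + 1`, `N = NN l`, `N' = NN l'`.
With `N' ≈ E = exp R` and `N ≈ E^θ`, `θ = (2 + 2 s)/(2 + s)`, both first terms are of size `ρ E^(1 + σ)`, `1 + σ = 2 (1+s)²/(2+s)`, and `σ < 1` iff `s² + s < 1`. -/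

set_option autoImplicit false
open Real Set

namespace Pool.Agent.Helper18.PV

open Pool.Agent.Helper18.FD (NN NN_pos NN_ge)

/-- the recursion for the closeness scale -/
private noncomputable def RR (σ L : ℝ) : ℕ → ℝ → ℝ
  | 0 => fun t => t + 2
  | (n + 1) => fun t => (1 + σ) * RR σ L n (t + 3 + (n + 2) * Real.log 2) + t + L + (n + 13)

private lemma RR_nonneg {σ L : ℝ} (hs : 0 < σ) (hL : 1 ≤ L) :
    ∀ (n : ℕ) (t : ℝ), 0 ≤ t → 0 ≤ RR σ L n t := by
  intro n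
  induction n with
  | zero => intro t ht; simp only [RR]; linarith
  | succ n ih =>
    intro t ht
    have hl : 0 < Real.log 2 := Real.log_pos (by norm_num)
    have h := ih (t + 3 + (n + 2) * Real.log 2) (by positivity)
    simp only [RR]
    have := mul_nonneg (by linarith : (0 : ℝ) ≤ 1 + σ) h
    positivity

private lemma RR_bound {σ L : ℝ} (hs : 0 < σ) (hL : 1 ≤ L) :
    ∀ (n : ℕ) (t : ℝ), 0 ≤ t →
    RR σ L n t ≤ ((1 + σ) ^ n * (1 + 1 / σ) - 1 / σ) * t +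
      (1 + σ) ^ n * (2 + n * ((1 + 1 / σ) * (n + 5) + L + n + 13)) := by
  intro n
  induction n with
  | zero =>
    intro t ht
    simp only [RR, pow_zero, one_mul, Nat.cast_zero, zero_mul, add_zero]
    linarith
  | succ n ih =>
    intro t ht
    have hl : 0 < Real.log 2 := Real.log_pos (by norm_num)
    have hl1 : Real.log 2 ≤ 1 := by
      have := Real.log_le_sub_one_of_pos (show (0 : ℝ) < 2 by norm_num)
      linarith
    have h := ih (t + 3 + (n + 2) * Real.log 2) (by positivity)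
    simp only [RR]
    set p : ℝ := (1 + σ) ^ n with hp
    set c : ℝ := 1 + 1 / σ with hc
    have hp1 : 1 ≤ p := one_le_pow₀ (by linarith)
    have hcs : 0 < 1 / σ := by positivity
    have hc1 : 0 < c := by positivity
    have hpc : 0 ≤ p * c - 1 / σ := by
      have : 1 * c ≤ p * c := mul_le_mul_of_nonneg_right hp1 (by positivity)
      rw [hc] at this ⊢
      linarith
    have hs1 : 0 < 1 + σ := by linarith
    have hn0 : (0 : ℝ) ≤ n := Nat.cast_nonneg n
    have e1 : (1 + σ) * RR σ L n (t + 3 + (n + 2) * Real.log 2) ≤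
        (1 + σ) * ((p * c - 1 / σ) * (t + 3 + (n + 2) * Real.log 2) +
          p * (2 + n * (c * (n + 5) + L + n + 13))) := mul_le_mul_of_nonneg_left h hs1.le
    have e2 : (p * c - 1 / σ) * (3 + (n + 2) * Real.log 2) ≤ p * c * (n + 5) := by
      have a1 : 3 + (n + 2) * Real.log 2 ≤ (n : ℝ) + 5 := by nlinarith
      have a2 : (0 : ℝ) ≤ 3 + (n + 2) * Real.log 2 := by positivity
      calc (p * c - 1 / σ) * (3 + (n + 2) * Real.log 2) ≤ (p * c) * (3 + (n + 2) * Real.log 2) :=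
            mul_le_mul_of_nonneg_right (by linarith) a2
        _ ≤ p * c * (n + 5) := mul_le_mul_of_nonneg_left a1 (by positivity)
    have e3 : (1 + σ) * ((p * c - 1 / σ) * (3 + (n + 2) * Real.log 2)) ≤
        (1 + σ) * (p * c * (n + 5)) := mul_le_mul_of_nonneg_left e2 hs1.le
    have hq1 : 1 ≤ (1 + σ) * p := by nlinarith
    have e4 : L + (n + 13) ≤ (1 + σ) * p * (L + (n + 13)) :=
      le_mul_of_one_le_left (by linarith) hq1
    have e5 : (0 : ℝ) ≤ (1 + σ) * p * ((n + 1) * c + (n + 1) + 1) := by positivity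
    have e6 : (1 + σ) * (1 / σ) = 1 / σ + 1 := by field_simp
    have e7 : (1 + σ) ^ (n + 1) = (1 + σ) * p := by rw [hp]; ring
    rw [e7]
    push_cast
    have e8 : (1 + σ) * ((p * c - 1 / σ) * (t + 3 + (n + 2) * Real.log 2) +
          p * (2 + n * (c * (n + 5) + L + n + 13))) =
        ((1 + σ) * p * c - (1 / σ + 1)) * t + (1 + σ) * ((p * c - 1 / σ) * (3 + (n + 2) * Real.log 2))
          + (1 + σ) * p * (2 + n * (c * (n + 5) + L + n + 13)) := by
      rw [← e6]; ring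
    rw [e8] at e1
    have e9 : (1 + σ) * p * (2 + (n + 1) * (c * (n + 1 + 5) + L + (n + 1) + 13)) =
        (1 + σ) * (p * c * (n + 5)) + (1 + σ) * p * (2 + n * (c * (n + 5) + L + n + 13)) +
          (1 + σ) * p * (L + (n + 13)) + (1 + σ) * p * ((n + 1) * c + (n + 1) + 0) := by ring
    have e10 : 0 ≤ (1 + σ) * p * ((n + 1) * c + (n + 1) + 0) := by positivity
    rw [e9]
    linarith

private lemma RR_bound2 {σ L : ℝ} (hs : 0 < σ) (hL : 1 ≤ L) (n : ℕ) (t : ℝ) (ht : 0 ≤ t) :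
    RR σ L n t ≤ (1 + σ) ^ n * ((20 + 2 * (1 / σ)) * ((n : ℝ) + 2) ^ 2 * (t + L)) := by
  have h := RR_bound hs hL n t ht
  set p : ℝ := (1 + σ) ^ n with hp
  have hp1 : 1 ≤ p := one_le_pow₀ (by linarith)
  have hcs : 0 < 1 / σ := by positivity
  set d : ℝ := 1 / σ with hd
  have hn0 : (0 : ℝ) ≤ n := Nat.cast_nonneg n
  have h1 : (p * (1 + d) - d) * t ≤ p * ((1 + d) * t) := by nlinarith [mul_nonneg hcs.le ht]
  have h2 : (1 + d) * t + (2 + n * ((1 + d) * (n + 5) + L + n + 13)) ≤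
      (20 + 2 * d) * ((n : ℝ) + 2) ^ 2 * (t + L) := by
    have hdn : 0 ≤ d * n := by positivity
    have hdn2 : 0 ≤ d * n * n := by positivity
    have hnn : 0 ≤ (n : ℝ) * n := by positivity
    have a0 : 0 ≤ 2 + (n : ℝ) * ((1 + d) * (n + 5)) + (n : ℝ) * n + 13 * n := by positivity
    have a1 : 2 + (n : ℝ) * ((1 + d) * (n + 5)) + (n : ℝ) * n + 13 * n ≤
        (2 + (n : ℝ) * ((1 + d) * (n + 5)) + (n : ℝ) * n + 13 * n) * L :=
      le_mul_of_one_le_right a0 hL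
    have a4 : (1 + d) * t ≤ (20 + 2 * d) * ((n : ℝ) + 2) ^ 2 * t := by
      apply mul_le_mul_of_nonneg_right _ ht
      nlinarith
    have a5 : (2 + (n : ℝ) * ((1 + d) * (n + 5)) + (n : ℝ) * n + 14 * n) * L ≤
        (20 + 2 * d) * ((n : ℝ) + 2) ^ 2 * L := by
      apply mul_le_mul_of_nonneg_right _ (by linarith)
      nlinarith
    nlinarith
  calc RR σ L n t ≤ (p * (1 + d) - d) * t + p * (2 + n * ((1 + d) * (n + 5) + L + n + 13)) := h
    _ ≤ p * ((1 + d) * t) + p * (2 + n * ((1 + d) * (n + 5) + L + n + 13)) := by linarith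
    _ = p * ((1 + d) * t + (2 + n * ((1 + d) * (n + 5) + L + n + 13))) := by ring
    _ ≤ p * ((20 + 2 * d) * ((n : ℝ) + 2) ^ 2 * (t + L)) := mul_le_mul_of_nonneg_left h2 (by linarith)

private lemma base_q (q : ℝ → ℝ) (h3 : ∀ ρ, 0 < ρ → q ρ ≤ 3 * ρ) (t r : ℝ) (hr : t + 2 ≤ r) :
    q (Real.exp (-r)) ≤ Real.exp (-t) := by
  have h1 := h3 _ (Real.exp_pos (-r))
  have h2 : (3 : ℝ) ≤ Real.exp 2 := by
    have := Real.add_one_le_exp (2 : ℝ)
    linarith
  have h4 : Real.exp 2 * Real.exp (-r) ≤ Real.exp (-t) := by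
    rw [← Real.exp_add]
    exact Real.exp_le_exp.mpr (by linarith)
  have h5 : 3 * Real.exp (-r) ≤ Real.exp 2 * Real.exp (-r) :=
    mul_le_mul_of_nonneg_right h2 (Real.exp_pos _).le
  linarith

private lemma NN_succ' (l : ℕ) : (NN (l + 1) : ℝ) = 2 * NN l := by
  unfold NN
  push_cast
  ring

/-- a level with `2 E ≤ N ≤ 8 E` -/
private lemma NN_exists (E : ℝ) (hE : 1 ≤ E) : ∃ l : ℕ, 2 * E ≤ NN l ∧ (NN l : ℝ) ≤ 8 * E := by
  classical
  have hex : ∃ l : ℕ, 2 * E ≤ (NN l : ℝ) := by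
    obtain ⟨n, hn⟩ := pow_unbounded_of_one_lt (2 * E) (show (1 : ℝ) < 2 by norm_num)
    refine ⟨n, hn.le.trans ?_⟩
    unfold NN
    push_cast
    exact pow_le_pow_right₀ (by norm_num) (by omega)
  refine ⟨Nat.find hex, Nat.find_spec hex, ?_⟩
  rcases Nat.eq_zero_or_pos (Nat.find hex) with h0 | h0
  · rw [h0]
    have : (NN 0 : ℝ) = 8 := by unfold NN; norm_num
    rw [this]
    linarith
  · obtain ⟨m, hm⟩ := Nat.exists_eq_succ_of_ne_zero h0.ne'
    have hlt : m < Nat.find hex := by omega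
    have h1 := Nat.find_min hex hlt
    rw [hm, Nat.succ_eq_add_one, NN_succ']
    push Not at h1
    linarith

/-- `1 + σ = 2 (1 + s)² / (2 + s)` -/
noncomputable def sig (s : ℝ) : ℝ := 2 * (1 + s) ^ 2 / (2 + s) - 1

lemma sig_pos {s : ℝ} (hs : 0 < s) : 0 < sig s := by
  unfold sig
  have : 1 < 2 * (1 + s) ^ 2 / (2 + s) := by
    rw [lt_div_iff₀ (by linarith)]
    nlinarith
  linarith

lemma sig_lt_one {s : ℝ} (hs : 0 < s) (h : s ^ 2 + s < 1) : sig s < 1 := by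
  unfold sig
  have : 2 * (1 + s) ^ 2 / (2 + s) < 2 := by
    rw [div_lt_iff₀ (by linarith)]
    nlinarith
  linarith

private lemma exp12 : (163840 : ℝ) ≤ Real.exp 12 + 2000 := by
  have h1 : (2.7182 : ℝ) ≤ Real.exp 1 := by
    have := Real.exp_one_gt_d9
    linarith
  have h2 : Real.exp 12 = Real.exp 1 ^ 12 := by
    rw [← Real.exp_nat_mul]; norm_num
  rw [h2]
  calc (163840 : ℝ) ≤ 2.7182 ^ 12 + 2000 := by norm_num
    _ ≤ Real.exp 1 ^ 12 + 2000 := by gcongr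

private lemma rec_step {s B : ℝ} (hs : 0 < s) (hs1 : s ^ 2 + s < 1) (hB : 1 ≤ B) (q : ℕ → ℝ → ℝ)
    (hmono : ∀ k, Monotone (q k)) (h1 : ∀ ρ, 0 < ρ → q 1 ρ ≤ 3 * ρ) (h2 : ∀ ρ, 0 < ρ → q 2 ρ ≤ 3 * ρ)
    (H : ∀ k : ℕ, 3 ≤ k → ∀ (l l' : ℕ) (ρ : ℝ), 0 < ρ →
        ∃ g g' : ℕ, 1 ≤ g ∧ g ≤ k / 2 + 1 ∧ 1 ≤ g' ∧ g' ≤ k / 2 + 1 ∧
          q k ρ ≤ 2 * ρ * (B * (NN l : ℝ) ^ (1 + s)) +
            8 * k * ρ * (B * (NN l' : ℝ) ^ (1 + s)) ^ 2 / NN l +
            k * q g (2 / NN l) + 2 * k * q g' (2 / NN l')) :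
    ∀ (n : ℕ) (g : ℕ), 1 ≤ g → g ≤ 2 ^ n + 1 → ∀ t r : ℝ, 0 ≤ t →
      RR (sig s) (1 + 2 * Real.log B) n t ≤ r →
      q g (Real.exp (-r)) ≤ Real.exp (-t) := by
  have hσ := sig_pos hs
  have hlB : 0 ≤ Real.log B := Real.log_nonneg hB
  set L : ℝ := 1 + 2 * Real.log B with hL
  have hL1 : 1 ≤ L := by linarith
  have hl : 0 < Real.log 2 := Real.log_pos (by norm_num)
  have hs2 : s < 1 := by nlinarith
  intro n
  induction n with
  | zero =>
    intro g hg1 hg2 t r ht hr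
    have : g = 1 ∨ g = 2 := by omega
    rcases this with rfl | rfl
    · exact base_q (q 1) h1 t r hr
    · exact base_q (q 2) h2 t r hr
  | succ n ih =>
    intro k hk1 hk2 t r ht hr
    simp only [RR] at hr
    have ht' : 0 ≤ t + 3 + ((n : ℝ) + 2) * Real.log 2 := by positivity
    have hR0 := RR_nonneg hσ hL1 n _ ht'
    set t' : ℝ := t + 3 + ((n : ℝ) + 2) * Real.log 2 with ht'def
    set R : ℝ := RR (sig s) L n t' with hR
    have hn0 : (0 : ℝ) ≤ n := Nat.cast_nonneg n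
    have hrt : t + 2 ≤ r := by
      have := mul_nonneg (by linarith : (0 : ℝ) ≤ 1 + sig s) hR0
      linarith
    rcases Nat.lt_or_ge k 3 with hk | hk
    · have : k = 1 ∨ k = 2 := by omega
      rcases this with rfl | rfl
      · exact base_q (q 1) h1 t r hrt
      · exact base_q (q 2) h2 t r hrt
    · set θ : ℝ := (2 + 2 * s) / (2 + s) with hθ
      have hθ1 : 1 ≤ θ := by
        rw [hθ, le_div_iff₀ (by linarith)]
        linarith
      have hθ2 : θ * (1 + s) = 1 + sig s := by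
        rw [hθ, sig]
        field_simp
        ring
      have hθ3 : 2 + 2 * s - θ = 1 + sig s := by
        rw [hθ, sig]
        field_simp
        ring
      set E : ℝ := Real.exp R with hE
      have hE1 : 1 ≤ E := Real.one_le_exp hR0
      have hE0 : 0 < E := Real.exp_pos _
      have hEθ1 : 1 ≤ E ^ θ := Real.one_le_rpow hE1 (by linarith)
      have hEθ : E ≤ E ^ θ := by
        calc E = E ^ (1 : ℝ) := (Real.rpow_one E).symm
          _ ≤ E ^ θ := Real.rpow_le_rpow_of_exponent_le hE1 hθ1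
      obtain ⟨l', hl1, hl2⟩ := NN_exists E hE1
      obtain ⟨l, hl3, hl4⟩ := NN_exists (E ^ θ) hEθ1
      have hN := NN_pos l
      have hN' := NN_pos l'
      have hρ : 0 < Real.exp (-r) := Real.exp_pos _
      obtain ⟨g, g', hg1, hg2, hg3, hg4, hq⟩ := H k hk l l' (Real.exp (-r)) hρ
      have hk5 : k / 2 + 1 ≤ 2 ^ n + 1 := by
        have : 2 ^ (n + 1) = 2 * 2 ^ n := by ring
        omega
      have hcl : ∀ (g : ℕ) (m : ℕ), 1 ≤ g → g ≤ k / 2 + 1 → 2 * E ≤ NN m →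
          q g (2 / NN m) ≤ Real.exp (-t') := by
        intro g m hg hg' hm
        have hm0 := NN_pos m
        have c1 : q g (2 / NN m) ≤ q g (Real.exp (-R)) := by
          apply hmono g
          rw [div_le_iff₀ hm0, Real.exp_neg, ← hE]
          rw [inv_mul_eq_div, le_div_iff₀ hE0]
          exact hm
        exact c1.trans (ih g hg (hg'.trans hk5) t' R ht' le_rfl)
      have hq1 : q g (2 / NN l) ≤ Real.exp (-t') := hcl g l hg1 hg2 (by linarith)
      have hq2 : q g' (2 / NN l') ≤ Real.exp (-t') := hcl g' l' hg3 hg4 hl1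
      have hk3 : (k : ℝ) ≤ 2 ^ (n + 2) := by
        have h5 : 2 ^ (n + 2) = 2 * 2 ^ (n + 1) := by ring
        have h6 : 1 ≤ 2 ^ (n + 1) := Nat.one_le_two_pow
        have : k ≤ 2 ^ (n + 2) := by omega
        exact_mod_cast this
      have d1 : (2 : ℝ) ^ (n + 2) = Real.exp (((n : ℝ) + 2) * Real.log 2) := by
        rw [mul_comm, Real.exp_mul, Real.exp_log (by norm_num)]
        have : ((n : ℝ) + 2) = ((n + 2 : ℕ) : ℝ) := by push_cast; ring
        rw [this, Real.rpow_natCast]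
      have hk0 : (0 : ℝ) ≤ k := Nat.cast_nonneg k
      have hkt : 3 * (k : ℝ) * Real.exp (-t') ≤ Real.exp (-t) / 2 := by
        have d2 : (k : ℝ) * Real.exp (-t') ≤ Real.exp (-t - 3) := by
          calc (k : ℝ) * Real.exp (-t') ≤ 2 ^ (n + 2) * Real.exp (-t') :=
                mul_le_mul_of_nonneg_right hk3 (Real.exp_pos _).le
            _ = Real.exp (-t - 3) := by
              rw [d1, ← Real.exp_add]
              congr 1
              rw [ht'def]
              ring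
        have d3 : Real.exp (-t) = Real.exp 3 * Real.exp (-t - 3) := by
          rw [← Real.exp_add]; congr 1; ring
        have d4 : (6 : ℝ) ≤ Real.exp 3 := by
          have h7 := Real.add_one_le_exp (1 : ℝ)
          have h8 : Real.exp 3 = Real.exp 1 ^ 3 := by
            rw [← Real.exp_nat_mul]; norm_num
          rw [h8]
          calc (6 : ℝ) ≤ (1 + 1) ^ 3 := by norm_num
            _ ≤ Real.exp 1 ^ 3 := by gcongr
        have d5 : 6 * Real.exp (-t - 3) ≤ Real.exp 3 * Real.exp (-t - 3) :=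
          mul_le_mul_of_nonneg_right d4 (Real.exp_pos _).le
        linarith
      have hBL : B * B = Real.exp (L - 1) := by
        rw [hL, show (1 : ℝ) + 2 * Real.log B - 1 = Real.log B + Real.log B by ring, Real.exp_add,
          Real.exp_log (by linarith)]
      have key : Real.exp (-r) * E ^ (1 + sig s) * (B * B) * 2 ^ (n + 2) * Real.exp 12 ≤ Real.exp (-t) := by
        have e1 : E ^ (1 + sig s) = Real.exp ((1 + sig s) * R) := by
          rw [hE, ← Real.exp_mul, mul_comm]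
        rw [e1, hBL, d1, ← Real.exp_add, ← Real.exp_add, ← Real.exp_add, ← Real.exp_add]
        apply Real.exp_le_exp.mpr
        have hl1 : Real.log 2 ≤ 1 := by
          have := Real.log_le_sub_one_of_pos (show (0 : ℝ) < 2 by norm_num)
          linarith
        have hl2 : ((n : ℝ) + 2) * Real.log 2 ≤ n + 2 := by nlinarith
        linarith
      have hBB : B ≤ B * B := le_mul_of_one_le_left (by linarith) hB
      have h8s : (8 : ℝ) ^ (1 + s) ≤ 64 := by
        calc (8 : ℝ) ^ (1 + s) ≤ 8 ^ (2 : ℝ) :=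
              Real.rpow_le_rpow_of_exponent_le (by norm_num) (by linarith)
          _ = 64 := by norm_num
      have f1 : (NN l : ℝ) ^ (1 + s) ≤ 64 * E ^ (1 + sig s) := by
        calc (NN l : ℝ) ^ (1 + s) ≤ (8 * E ^ θ) ^ (1 + s) :=
              Real.rpow_le_rpow hN.le hl4 (by linarith)
          _ = 8 ^ (1 + s) * (E ^ θ) ^ (1 + s) := Real.mul_rpow (by norm_num) (by positivity)
          _ = 8 ^ (1 + s) * E ^ (1 + sig s) := by rw [← Real.rpow_mul hE0.le, hθ2]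
          _ ≤ 64 * E ^ (1 + sig s) := mul_le_mul_of_nonneg_right h8s (by positivity)
      have f2 : ((NN l' : ℝ) ^ (1 + s)) ^ 2 / NN l ≤ 2048 * E ^ (1 + sig s) := by
        have g1 : ((NN l' : ℝ) ^ (1 + s)) ^ 2 ≤ 4096 * E ^ (2 + 2 * s) := by
          have g2 : (NN l' : ℝ) ^ (1 + s) ≤ 64 * E ^ (1 + s) := by
            calc (NN l' : ℝ) ^ (1 + s) ≤ (8 * E) ^ (1 + s) :=
                  Real.rpow_le_rpow hN'.le hl2 (by linarith)
              _ = 8 ^ (1 + s) * E ^ (1 + s) := Real.mul_rpow (by norm_num) hE0.le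
              _ ≤ 64 * E ^ (1 + s) := mul_le_mul_of_nonneg_right h8s (by positivity)
          calc ((NN l' : ℝ) ^ (1 + s)) ^ 2 ≤ (64 * E ^ (1 + s)) ^ 2 := by gcongr
            _ = 4096 * (E ^ (1 + s)) ^ 2 := by ring
            _ = 4096 * E ^ (2 + 2 * s) := by
              rw [← Real.rpow_natCast, ← Real.rpow_mul hE0.le]
              congr 2
              push_cast
              ring
        rw [div_le_iff₀ hN]
        calc ((NN l' : ℝ) ^ (1 + s)) ^ 2 ≤ 4096 * E ^ (2 + 2 * s) := g1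
          _ = 2048 * E ^ (1 + sig s) * (2 * E ^ θ) := by
            rw [← hθ3, show 2048 * E ^ (2 + 2 * s - θ) * (2 * E ^ θ) =
              4096 * (E ^ (2 + 2 * s - θ) * E ^ θ) by ring, ← Real.rpow_add hE0]
            congr 2
            ring
          _ ≤ 2048 * E ^ (1 + sig s) * NN l := mul_le_mul_of_nonneg_left hl3 (by positivity)
      set Y : ℝ := Real.exp (-r) * E ^ (1 + sig s) * (B * B) * 2 ^ (n + 2) with hY
      have hY0 : 0 ≤ Y := by positivity
      have t1 : 2 * Real.exp (-r) * (B * (NN l : ℝ) ^ (1 + s)) ≤ 128 * Y := by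
        have h2n : (1 : ℝ) ≤ 2 ^ (n + 2) := one_le_pow₀ (by norm_num)
        calc 2 * Real.exp (-r) * (B * (NN l : ℝ) ^ (1 + s))
            ≤ 2 * Real.exp (-r) * (B * B * (64 * E ^ (1 + sig s))) := by gcongr
          _ = 128 * (Real.exp (-r) * E ^ (1 + sig s) * (B * B)) * 1 := by ring
          _ ≤ 128 * (Real.exp (-r) * E ^ (1 + sig s) * (B * B)) * 2 ^ (n + 2) := by gcongr
          _ = 128 * Y := by rw [hY]; ring
      have t2 : 8 * k * Real.exp (-r) * (B * (NN l' : ℝ) ^ (1 + s)) ^ 2 / NN l ≤ 16384 * Y := by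
        calc 8 * k * Real.exp (-r) * (B * (NN l' : ℝ) ^ (1 + s)) ^ 2 / NN l
            = 8 * k * Real.exp (-r) * (B * B) * (((NN l' : ℝ) ^ (1 + s)) ^ 2 / NN l) := by ring
          _ ≤ 8 * 2 ^ (n + 2) * Real.exp (-r) * (B * B) * (2048 * E ^ (1 + sig s)) := by gcongr
          _ = 16384 * Y := by rw [hY]; ring
      have t3 : 33024 * Y ≤ Real.exp (-t) := by
        have := exp12
        calc 33024 * Y ≤ Real.exp 12 * Y := by
              apply mul_le_mul_of_nonneg_right _ hY0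
              linarith
          _ = Real.exp (-r) * E ^ (1 + sig s) * (B * B) * 2 ^ (n + 2) * Real.exp 12 := by
            rw [hY]; ring
          _ ≤ Real.exp (-t) := key
      have t4 : (k : ℝ) * q g (2 / NN l) ≤ k * Real.exp (-t') := mul_le_mul_of_nonneg_left hq1 hk0
      have t5 : 2 * (k : ℝ) * q g' (2 / NN l') ≤ 2 * k * Real.exp (-t') :=
        mul_le_mul_of_nonneg_left hq2 (by positivity)
      linarith

private lemma poly_pow {b : ℝ} (hb : 1 < b) : ∃ M : ℝ, 0 < M ∧ ∀ n : ℕ, ((n : ℝ) + 2) ^ 2 ≤ M * b ^ n := by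
  have h := tendsto_pow_const_div_const_pow_of_one_lt 2 hb
  obtain ⟨M, hM⟩ := h.bddAbove_range
  have hb0 : 0 < b := by linarith
  refine ⟨(max M 1) * b ^ 2, by positivity, fun n => ?_⟩
  have h1 : (((n + 2 : ℕ) : ℝ)) ^ 2 / b ^ (n + 2) ≤ M := hM ⟨n + 2, rfl⟩
  rw [div_le_iff₀ (by positivity)] at h1
  have h2 : (((n + 2 : ℕ) : ℝ)) = (n : ℝ) + 2 := by push_cast; ring
  rw [h2] at h1
  calc ((n : ℝ) + 2) ^ 2 ≤ M * b ^ (n + 2) := h1
    _ ≤ max M 1 * b ^ (n + 2) := mul_le_mul_of_nonneg_right (le_max_left _ _) (by positivity)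
    _ = max M 1 * b ^ 2 * b ^ n := by ring

theorem rec_close {s : ℝ} (hs : 0 < s) (hs1 : s ^ 2 + s < 1) :
    ∃ β C : ℝ, 0 < β ∧ β < 1 ∧ 0 < C ∧ ∀ (B : ℝ) (q : ℕ → ℝ → ℝ), 1 ≤ B →
      (∀ k, Monotone (q k)) → (∀ ρ, 0 < ρ → q 1 ρ ≤ 3 * ρ) → (∀ ρ, 0 < ρ → q 2 ρ ≤ 3 * ρ) →
      (∀ k : ℕ, 3 ≤ k → ∀ (l l' : ℕ) (ρ : ℝ), 0 < ρ →
        ∃ g g' : ℕ, 1 ≤ g ∧ g ≤ k / 2 + 1 ∧ 1 ≤ g' ∧ g' ≤ k / 2 + 1 ∧
          q k ρ ≤ 2 * ρ * (B * (NN l : ℝ) ^ (1 + s)) +
            8 * k * ρ * (B * (NN l' : ℝ) ^ (1 + s)) ^ 2 / NN l +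
            k * q g (2 / NN l) + 2 * k * q g' (2 / NN l')) →
      ∀ K g : ℕ, 1 ≤ g → g ≤ K → ∀ t r : ℝ, 0 ≤ t →
        C * (K : ℝ) ^ β * (t + (1 + 2 * Real.log B)) ≤ r →
        q g (Real.exp (-r)) ≤ Real.exp (-t) := by
  have hl : 0 < Real.log 2 := Real.log_pos (by norm_num)
  have hσ := sig_pos hs
  have hσ1 := sig_lt_one hs hs1
  set α : ℝ := Real.log (1 + sig s) / Real.log 2 with hα
  have hα0 : 0 < α := div_pos (Real.log_pos (by linarith)) hl
  have hα1 : α < 1 := by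
    rw [hα, div_lt_one hl]
    exact Real.log_lt_log (by linarith) (by linarith)
  set δ : ℝ := (1 - α) / 2 with hδ
  have hδ0 : 0 < δ := by rw [hδ]; linarith
  have h2α : (2 : ℝ) ^ α = 1 + sig s := by
    rw [Real.rpow_def_of_pos (by norm_num), hα, mul_div_cancel₀ _ hl.ne',
      Real.exp_log (by linarith)]
  have hb : 1 < (2 : ℝ) ^ δ := Real.one_lt_rpow (by norm_num) hδ0
  obtain ⟨M, hM0, hM⟩ := poly_pow hb
  refine ⟨α + δ, (20 + 2 * (1 / sig s)) * M * 4, by linarith, by rw [hδ]; linarith, by positivity, ?_⟩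
  intro B q hB hmono h1 h2 H K g hg1 hgK t r ht hr
  have hK1 : 1 ≤ K := hg1.trans hgK
  have hlB : 0 ≤ Real.log B := Real.log_nonneg hB
  have hLL : 1 ≤ 1 + 2 * Real.log B := by linarith
  have hlog1 : 2 ^ Nat.log 2 K ≤ K := Nat.pow_log_le_self 2 (by omega)
  have hlog2 : K < 2 ^ (Nat.log 2 K + 1) := Nat.lt_pow_succ_log_self (by norm_num) K
  set n : ℕ := Nat.log 2 K + 1 with hn
  refine rec_step hs hs1 hB q hmono h1 h2 H n g hg1 (by omega) t r ht (le_trans ?_ hr)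
  refine (RR_bound2 hσ hLL n t ht).trans ?_
  have hK0 : (0 : ℝ) < K := by exact_mod_cast hK1
  have h2n : ((2 : ℝ) ^ n) ≤ 2 * K := by
    rw [hn, pow_succ]
    have : ((2 : ℝ) ^ Nat.log 2 K) ≤ K := by exact_mod_cast hlog1
    linarith
  have hpw : ∀ x : ℝ, 0 < x → x < 1 → (2 * (K : ℝ)) ^ x ≤ 2 * (K : ℝ) ^ x := by
    intro x hx0 hx1
    rw [Real.mul_rpow (by norm_num) hK0.le]
    apply mul_le_mul_of_nonneg_right _ (by positivity)
    calc (2 : ℝ) ^ x ≤ 2 ^ (1 : ℝ) := Real.rpow_le_rpow_of_exponent_le (by norm_num) hx1.le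
      _ = 2 := Real.rpow_one 2
  have e1 : (1 + sig s) ^ n ≤ 2 * (K : ℝ) ^ α := by
    rw [← h2α, ← Real.rpow_natCast, ← Real.rpow_mul (by norm_num), mul_comm α, Real.rpow_mul (by norm_num),
      Real.rpow_natCast]
    exact (Real.rpow_le_rpow (by positivity) h2n hα0.le).trans (hpw α hα0 hα1)
  have e2 : ((2 : ℝ) ^ δ) ^ n ≤ 2 * (K : ℝ) ^ δ := by
    rw [← Real.rpow_natCast, ← Real.rpow_mul (by norm_num), mul_comm δ, Real.rpow_mul (by norm_num),
      Real.rpow_natCast]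
    exact (Real.rpow_le_rpow (by positivity) h2n hδ0.le).trans (hpw δ hδ0 (by rw [hδ]; linarith))
  have e3 : ((n : ℝ) + 2) ^ 2 ≤ M * (2 * (K : ℝ) ^ δ) :=
    (hM n).trans (mul_le_mul_of_nonneg_left e2 hM0.le)
  have e4 : (0 : ℝ) ≤ t + (1 + 2 * Real.log B) := by linarith
  calc (1 + sig s) ^ n * ((20 + 2 * (1 / sig s)) * ((n : ℝ) + 2) ^ 2 * (t + (1 + 2 * Real.log B)))
      ≤ (2 * (K : ℝ) ^ α) * ((20 + 2 * (1 / sig s)) * (M * (2 * (K : ℝ) ^ δ)) * (t + (1 + 2 * Real.log B))) := by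
        gcongr
    _ = (20 + 2 * (1 / sig s)) * M * 4 * ((K : ℝ) ^ α * (K : ℝ) ^ δ) * (t + (1 + 2 * Real.log B)) := by ring
    _ = (20 + 2 * (1 / sig s)) * M * 4 * (K : ℝ) ^ (α + δ) * (t + (1 + 2 * Real.log B)) := by
        rw [← Real.rpow_add hK0]

end Pool.Agent.Helper18.PV
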