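import Pool.Agent.Helper18.FD.Core
import Pool.Agent.Helper18.PV.Rec

/-! Project PV, closeness part: an abstract system with frozen kicks on the circle.

`x_{n+1} = 2 x_n - x_{n-1} + F_ω(x_n)` on the circle, `F_ω` depends on independent coordinates `ω_i`, uniform in `[-1, 1]`; at level `l` the coordinate `idx l c` acts only near the cell `c`, and on the cell itself it adds
`amp l * ω`. `wd K ω z n` is the orbit: `wd 0 = z.2`, `wd 1 = z.1`. -/

set_option autoImplicit false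
open MeasureTheory Real Set
open scoped ENNReal

namespace Pool.Agent.Helper18.PV

open Pool.Agent.Helper18.FD (NN NN_pos NN_ge uu cl lm)

/-- the circle -/
abbrev Ci := UnitAddCircle

/-- the torus -/
abbrev T2 := Ci × Ci

instance instProbCi : IsProbabilityMeasure (volume : Measure Ci) := by
  constructor
  rw [UnitAddCircle.measure_univ]

instance instProbT2 : IsProbabilityMeasure (volume : Measure T2) := by
  show IsProbabilityMeasure ((volume : Measure Ci).prod volume)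
  infer_instance

/-- independent coordinates, uniform in `[-1, 1]` -/
noncomputable def law (ι : Type) : Measure (ι → ℝ) := Measure.infinitePi fun _ : ι => uu

instance instProbLaw (ι : Type) : IsProbabilityMeasure (law ι) := by unfold law; infer_instance

/-- the law of (noise, pair of consecutive positions) -/
noncomputable def mu (ι : Type) : Measure ((ι → ℝ) × T2) := (law ι).prod volume

instance instProbMu (ι : Type) : IsProbabilityMeasure (mu ι) := by unfold mu; infer_instance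

/-- forces with independent local kicks -/
structure Sy (ι : Type) where
  F : (ι → ℝ) → Ci → Ci
  idx : ℕ → ℕ → ι
  amp : ℕ → ℝ
  cel : ℕ → Ci → ℕ

/-- the hypotheses -/
structure Sy.Ok {ι : Type} [DecidableEq ι] (K : Sy ι) (B s : ℝ) : Prop where
  meas : Measurable fun q : (ι → ℝ) × Ci => K.F q.1 q.2
  mcel : ∀ l, Measurable (K.cel l)
  cel_lt : ∀ l x, K.cel l x < NN l
  hB : 1 ≤ B
  amp_ne : ∀ l, K.amp l ≠ 0
  amp_bd : ∀ l, 1 + 1 / (2 * |K.amp l|) ≤ B * (NN l : ℝ) ^ (1 + s)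
  ne : ∀ l x y, 2 / (NN l : ℝ) ≤ dist x y → K.idx l (K.cel l x) ≠ K.idx l (K.cel l y)
  off : ∀ l ω u x y, 2 / (NN l : ℝ) ≤ dist x y →
    K.F (Function.update ω (K.idx l (K.cel l x)) u) y = K.F ω y
  on : ∀ l ω u x, K.F (Function.update ω (K.idx l (K.cel l x)) u) x =
    K.F (Function.update ω (K.idx l (K.cel l x)) 0) x + ((K.amp l * cl u : ℝ) : Ci)

variable {ι : Type} {K : Sy ι}

/-- one step, the pair `(x_n, x_{n-1})` -/
def tw (K : Sy ι) (ω : ι → ℝ) (z : T2) : T2 := (z.1 + z.1 - z.2 + K.F ω z.1, z.1)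

/-- the orbit `x_0 = z.2, x_1 = z.1, ...` -/
def wd (K : Sy ι) (ω : ι → ℝ) (z : T2) : ℕ → Ci
  | 0 => z.2
  | 1 => z.1
  | (n + 2) => wd K ω z (n + 1) + wd K ω z (n + 1) - wd K ω z n + K.F ω (wd K ω z (n + 1))

@[simp] lemma wd_zero (ω : ι → ℝ) (z : T2) : wd K ω z 0 = z.2 := rfl

@[simp] lemma wd_one (ω : ι → ℝ) (z : T2) : wd K ω z 1 = z.1 := rfl

lemma wd_two (ω : ι → ℝ) (z : T2) (n : ℕ) :
    wd K ω z (n + 2) = wd K ω z (n + 1) + wd K ω z (n + 1) - wd K ω z n + K.F ω (wd K ω z (n + 1)) := rfl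

lemma wd_tw (ω : ι → ℝ) (z : T2) : ∀ n : ℕ, wd K ω (tw K ω z) n = wd K ω z (n + 1)
  | 0 => rfl
  | 1 => rfl
  | (n + 2) => by
    rw [wd_two, wd_tw ω z (n + 1), wd_tw ω z n, ← wd_two]

lemma wd_iter (ω : ι → ℝ) (z : T2) (i n : ℕ) : wd K ω ((tw K ω)^[i] z) n = wd K ω z (n + i) := by
  induction i generalizing z with
  | zero => rfl
  | succ i ih => rw [Function.iterate_succ_apply, ih, wd_tw]; rfl

lemma iter_eq (ω : ι → ℝ) (z : T2) (n : ℕ) : (tw K ω)^[n] z = (wd K ω z (n + 1), wd K ω z n) := by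
  have h1 := wd_iter (K := K) ω z n 1
  have h0 := wd_iter (K := K) ω z n 0
  rw [wd_one, add_comm] at h1
  rw [wd_zero, zero_add] at h0
  exact Prod.ext h1 h0

/-- the orbit depends only on the force at the points passed -/
lemma wd_congr {ω ω' : ι → ℝ} {z : T2} {n : ℕ}
    (h : ∀ j, 1 ≤ j → j < n → K.F ω' (wd K ω z j) = K.F ω (wd K ω z j)) :
    ∀ j ≤ n, wd K ω' z j = wd K ω z j := by
  intro j
  induction j using Nat.strong_induction_on with
  | _ j ih =>
    intro hj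
    match j, hj with
    | 0, _ => rfl
    | 1, _ => rfl
    | (m + 2), hj =>
      rw [wd_two, wd_two, ih (m + 1) (by omega) (by omega), ih m (by omega) (by omega),
        h (m + 1) (by omega) (by omega)]

/-- reversal of time -/
lemma wd_rev (ω : ι → ℝ) (z : T2) (m : ℕ) :
    ∀ j ≤ m + 1, wd K ω (wd K ω z m, wd K ω z (m + 1)) j = wd K ω z (m + 1 - j) := by
  intro j
  induction j using Nat.strong_induction_on with
  | _ j ih =>
    intro hj
    match j, hj with
    | 0, _ => rfl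
    | 1, _ => rfl
    | (i + 2), hj =>
      rw [wd_two, ih (i + 1) (by omega) (by omega), ih i (by omega) (by omega)]
      obtain ⟨k, hk⟩ : ∃ k, m + 1 - (i + 2) = k := ⟨_, rfl⟩
      have e1 : m + 1 - (i + 1) = k + 1 := by omega
      have e0 : m + 1 - i = k + 2 := by omega
      rw [hk, e1, e0, wd_two]
      abel

variable [DecidableEq ι]

lemma meas_tw {B s : ℝ} (hK : K.Ok B s) : Measurable fun p : (ι → ℝ) × T2 => tw K p.1 p.2 := by
  have h1 : Measurable fun p : (ι → ℝ) × T2 => p.2.1 := measurable_fst.comp measurable_snd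
  have h2 : Measurable fun p : (ι → ℝ) × T2 => p.2.2 := measurable_snd.comp measurable_snd
  have h3 : Measurable fun p : (ι → ℝ) × T2 => K.F p.1 p.2.1 := hK.meas.comp (measurable_fst.prodMk h1)
  exact (((h1.add h1).sub h2).add h3).prodMk h1

lemma meas_wd {B s : ℝ} (hK : K.Ok B s) (n : ℕ) : Measurable fun p : (ι → ℝ) × T2 => wd K p.1 p.2 n := by
  induction n using Nat.strong_induction_on with
  | _ n ih =>
    match n with
    | 0 => exact measurable_snd.comp measurable_snd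
    | 1 => exact measurable_fst.comp measurable_snd
    | (m + 2) =>
      have h1 := ih (m + 1) (by omega)
      have h0 := ih m (by omega)
      have h3 : Measurable fun p : (ι → ℝ) × T2 => K.F p.1 (wd K p.1 p.2 (m + 1)) :=
        hK.meas.comp (measurable_fst.prodMk h1)
      exact ((h1.add h1).sub h0).add h3

lemma meas_wd' {B s : ℝ} (hK : K.Ok B s) (n : ℕ) (ω : ι → ℝ) : Measurable fun z : T2 => wd K ω z n :=
  (meas_wd hK n).comp (measurable_const.prodMk measurable_id)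

/-- one step preserves the area -/
lemma tw_mp {B s : ℝ} (hK : K.Ok B s) (ω : ι → ℝ) : MeasurePreserving (tw K ω) volume volume := by
  have hF : Measurable (K.F ω) := hK.meas.comp (measurable_const.prodMk measurable_id)
  have h1 : MeasurePreserving (fun z : T2 => (z.1, z.1 + z.1 + K.F ω z.1 - z.2))
      ((volume : Measure Ci).prod volume) ((volume : Measure Ci).prod volume) := by
    refine MeasurePreserving.skew_product (g := fun x y : Ci => x + x + K.F ω x - y)
      (MeasurePreserving.id _) ?_ ?_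
    · have h2 : Measurable fun z : T2 => K.F ω z.1 := hF.comp measurable_fst
      exact ((measurable_fst.add measurable_fst).add h2).sub measurable_snd
    · exact Filter.Eventually.of_forall fun x =>
        (Measure.measurePreserving_sub_left volume (x + x + K.F ω x)).map_eq
  have h2 := (Measure.measurePreserving_swap (μ := (volume : Measure Ci)) (ν := (volume : Measure Ci))).comp h1
  have h3 : tw K ω = Prod.swap ∘ fun z : T2 => (z.1, z.1 + z.1 + K.F ω z.1 - z.2) := by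
    funext z
    refine Prod.ext ?_ rfl
    show z.1 + z.1 - z.2 + K.F ω z.1 = z.1 + z.1 + K.F ω z.1 - z.2
    abel
  rw [h3]
  exact h2

lemma tw_iter_mp {B s : ℝ} (hK : K.Ok B s) (ω : ι → ℝ) (n : ℕ) :
    MeasurePreserving (tw K ω)^[n] volume volume := (tw_mp hK ω).iterate n

/-- the skew product -/
def sk (K : Sy ι) (p : (ι → ℝ) × T2) : (ι → ℝ) × T2 := (p.1, tw K p.1 p.2)

omit [DecidableEq ι] in
lemma sk_iter (n : ℕ) (p : (ι → ℝ) × T2) : (sk K)^[n] p = (p.1, (tw K p.1)^[n] p.2) := by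
  induction n generalizing p with
  | zero => rfl
  | succ n ih => rw [Function.iterate_succ_apply, ih, Function.iterate_succ_apply]; rfl

lemma sk_mp {B s : ℝ} (hK : K.Ok B s) : MeasurePreserving (sk K) (mu ι) (mu ι) := by
  unfold mu
  exact MeasurePreserving.skew_product (g := fun ω z => tw K ω z) (MeasurePreserving.id _) (meas_tw hK)
    (Filter.Eventually.of_forall fun ω => (tw_mp hK ω).map_eq)

lemma meas_dist {B s : ℝ} (hK : K.Ok B s) (i j : ℕ) :
    Measurable fun p : (ι → ℝ) × T2 => dist (wd K p.1 p.2 i) (wd K p.1 p.2 j) :=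
  (meas_wd hK i).dist (meas_wd hK j)

/-- closeness after `k` steps -/
noncomputable def qq (K : Sy ι) (k : ℕ) (ρ : ℝ) : ℝ :=
  (mu ι).real {p | dist (wd K p.1 p.2 k) (wd K p.1 p.2 0) < ρ}

omit [DecidableEq ι] in
lemma qq_mono (k : ℕ) : Monotone (qq K k) := fun _ _ h =>
  measureReal_mono fun _ hp => lt_of_lt_of_le hp h

omit [DecidableEq ι] in
lemma qq_nonneg (k : ℕ) (ρ : ℝ) : 0 ≤ qq K k ρ := measureReal_nonneg

omit [DecidableEq ι] in
lemma wd_sk (p : (ι → ℝ) × T2) (i n : ℕ) :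
    wd K ((sk K)^[i] p).1 ((sk K)^[i] p).2 n = wd K p.1 p.2 (n + i) := by
  rw [sk_iter, wd_iter]

/-- stationarity for sets -/
lemma stat_set {B s : ℝ} (hK : K.Ok B s) (i : ℕ) {S : Set ((ι → ℝ) × T2)} (hS : MeasurableSet S) :
    mu ι (((sk K)^[i]) ⁻¹' S) = mu ι S :=
  ((sk_mp hK).iterate i).measure_preimage hS.nullMeasurableSet

lemma stat {B s : ℝ} (hK : K.Ok B s) (i k : ℕ) (ρ : ℝ) :
    mu ι {p | dist (wd K p.1 p.2 (k + i)) (wd K p.1 p.2 i) < ρ} = ENNReal.ofReal (qq K k ρ) := by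
  have hm : MeasurableSet {p : (ι → ℝ) × T2 | dist (wd K p.1 p.2 k) (wd K p.1 p.2 0) < ρ} :=
    measurableSet_lt (meas_dist hK k 0) measurable_const
  have h1 : {p : (ι → ℝ) × T2 | dist (wd K p.1 p.2 (k + i)) (wd K p.1 p.2 i) < ρ} =
      ((sk K)^[i]) ⁻¹' {p | dist (wd K p.1 p.2 k) (wd K p.1 p.2 0) < ρ} := by
    ext p
    simp only [mem_ofPred_eq, mem_preimage, wd_sk, zero_add]
  rw [h1, stat_set hK i hm, qq, Measure.real, ENNReal.ofReal_toReal (measure_ne_top _ _)]

/-- closeness of two times -/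
lemma stat2 {B s : ℝ} (hK : K.Ok B s) {i j : ℕ} (h : i < j) (ρ : ℝ) :
    mu ι {p | dist (wd K p.1 p.2 i) (wd K p.1 p.2 j) < ρ} = ENNReal.ofReal (qq K (j - i) ρ) := by
  have h1 := stat hK i (j - i) ρ
  rw [Nat.sub_add_cancel h.le] at h1
  rw [← h1]
  congr 1
  ext p
  simp only [mem_ofPred_eq]
  rw [dist_comm]

lemma vol_ball (x : Ci) (ρ : ℝ) : volume (Metric.ball x ρ) ≤ ENNReal.ofReal (2 * ρ) := by
  refine (measure_mono Metric.ball_subset_closedBall).trans ?_
  rw [AddCircle.volume_closedBall]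
  exact ENNReal.ofReal_le_ofReal (min_le_right _ _)

lemma qq_one {B s : ℝ} (hK : K.Ok B s) {ρ : ℝ} (hρ : 0 < ρ) : qq K 1 ρ ≤ 3 * ρ := by
  have hm : MeasurableSet {p : (ι → ℝ) × T2 | dist (wd K p.1 p.2 1) (wd K p.1 p.2 0) < ρ} :=
    measurableSet_lt (meas_dist hK 1 0) measurable_const
  refine ENNReal.toReal_le_of_le_ofReal (by positivity) ?_
  rw [mu, Measure.prod_apply hm]
  have h1 : ∀ ω : ι → ℝ, volume (Prod.mk ω ⁻¹' {p : (ι → ℝ) × T2 |
      dist (wd K p.1 p.2 1) (wd K p.1 p.2 0) < ρ}) ≤ ENNReal.ofReal (3 * ρ) := by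
    intro ω
    have hm2 : MeasurableSet (Prod.mk ω ⁻¹' {p : (ι → ℝ) × T2 |
      dist (wd K p.1 p.2 1) (wd K p.1 p.2 0) < ρ}) := measurable_prodMk_left hm
    rw [Measure.volume_eq_prod, Measure.prod_apply_symm hm2]
    calc ∫⁻ y : Ci, volume ((fun x : Ci => (x, y)) ⁻¹' (Prod.mk ω ⁻¹' {p : (ι → ℝ) × T2 |
          dist (wd K p.1 p.2 1) (wd K p.1 p.2 0) < ρ}))
        ≤ ∫⁻ _y : Ci, ENNReal.ofReal (2 * ρ) := lintegral_mono fun y => vol_ball y ρ
      _ = ENNReal.ofReal (2 * ρ) := by rw [lintegral_const, measure_univ, mul_one]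
      _ ≤ ENNReal.ofReal (3 * ρ) := ENNReal.ofReal_le_ofReal (by linarith)
  calc ∫⁻ ω, volume (Prod.mk ω ⁻¹' {p : (ι → ℝ) × T2 |
      dist (wd K p.1 p.2 1) (wd K p.1 p.2 0) < ρ}) ∂(law ι)
      ≤ ∫⁻ _ω, ENNReal.ofReal (3 * ρ) ∂(law ι) := lintegral_mono h1
    _ = _ := by rw [lintegral_const, measure_univ, mul_one]

lemma qq_two {B s : ℝ} (hK : K.Ok B s) {ρ : ℝ} (hρ : 0 < ρ) : qq K 2 ρ ≤ 3 * ρ := by
  have hm : MeasurableSet {p : (ι → ℝ) × T2 | dist (wd K p.1 p.2 2) (wd K p.1 p.2 0) < ρ} :=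
    measurableSet_lt (meas_dist hK 2 0) measurable_const
  refine ENNReal.toReal_le_of_le_ofReal (by positivity) ?_
  rw [mu, Measure.prod_apply hm]
  have h1 : ∀ ω : ι → ℝ, volume (Prod.mk ω ⁻¹' {p : (ι → ℝ) × T2 |
      dist (wd K p.1 p.2 2) (wd K p.1 p.2 0) < ρ}) ≤ ENNReal.ofReal (3 * ρ) := by
    intro ω
    have hm2 : MeasurableSet (Prod.mk ω ⁻¹' {p : (ι → ℝ) × T2 |
      dist (wd K p.1 p.2 2) (wd K p.1 p.2 0) < ρ}) := measurable_prodMk_left hm
    rw [Measure.volume_eq_prod, Measure.prod_apply hm2]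
    have h2 : ∀ x : Ci, volume (Prod.mk x ⁻¹' (Prod.mk ω ⁻¹' {p : (ι → ℝ) × T2 |
          dist (wd K p.1 p.2 2) (wd K p.1 p.2 0) < ρ})) ≤ ENNReal.ofReal (2 * ρ) := by
      intro x
      have h3 : (Prod.mk x ⁻¹' (Prod.mk ω ⁻¹' {p : (ι → ℝ) × T2 |
          dist (wd K p.1 p.2 2) (wd K p.1 p.2 0) < ρ})) =
          (fun y : Ci => (2 : ℕ) • y) ⁻¹' (Metric.ball (x + x + K.F ω x) ρ) := by
        ext y
        simp only [mem_preimage, mem_ofPred_eq, Metric.mem_ball]
        rw [show wd K ω (x, y) 2 = x + x - y + K.F ω x from rfl, show wd K ω (x, y) 0 = y from rfl,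
          dist_eq_norm, dist_eq_norm, ← norm_neg]
        have : -(x + x - y + K.F ω x - y) = 2 • y - (x + x + K.F ω x) := by
          rw [two_nsmul]
          abel
        rw [this]
      rw [h3, ((AddCircle.ergodic_nsmul (T := (1 : ℝ)) (n := 2) (by norm_num)).toMeasurePreserving).measure_preimage
        (measurableSet_ball).nullMeasurableSet]
      exact vol_ball _ ρ
    calc ∫⁻ x : Ci, volume (Prod.mk x ⁻¹' (Prod.mk ω ⁻¹' {p : (ι → ℝ) × T2 |
          dist (wd K p.1 p.2 2) (wd K p.1 p.2 0) < ρ}))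
        ≤ ∫⁻ _x : Ci, ENNReal.ofReal (2 * ρ) := lintegral_mono h2
      _ = ENNReal.ofReal (2 * ρ) := by rw [lintegral_const, measure_univ, mul_one]
      _ ≤ ENNReal.ofReal (3 * ρ) := ENNReal.ofReal_le_ofReal (by linarith)
  calc ∫⁻ ω, volume (Prod.mk ω ⁻¹' {p : (ι → ℝ) × T2 |
      dist (wd K p.1 p.2 2) (wd K p.1 p.2 0) < ρ}) ∂(law ι)
      ≤ ∫⁻ _ω, ENNReal.ofReal (3 * ρ) ∂(law ι) := lintegral_mono h1
    _ = _ := by rw [lintegral_const, measure_univ, mul_one]

end Pool.Agent.Helper18.PV
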