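import Pool.Agent.Helper18.PV.Kick

/-! Project PV, closeness part: double kick in the middle of a segment. Given the pair `(x_{m+1}, x_m)`, isolated at the scale `2/N`, the past and the future pair are kicked independently, so their joint law (together
with the noise) has density at most `dn^2` with respect to the product of the Lebesgue measures. -/

set_option autoImplicit false
open MeasureTheory Real Set
open scoped ENNReal

namespace Pool.Agent.Helper18.PV

open Pool.Agent.Helper18.FD (NN NN_pos NN_ge uu cl lm cl_of_mem)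

variable {ι : Type} [DecidableEq ι] {K : Sy ι} {B s : ℝ}

omit [DecidableEq ι] in
lemma tw_snd (ω : ι → ℝ) (z : T2) : (tw K ω z).2 = z.1 := rfl

/-- permutation of the coordinates -/
def pm (w : T2 × T2) : T2 × T2 := ((w.2.1, w.1.2), (w.2.2, w.1.1))

lemma pm_mp : MeasurePreserving pm (volume : Measure (T2 × T2)) volume := by
  have h1 : MeasurePreserving (fun w : T2 × T2 => (w.1.1, (w.1.2, w.2))) (volume : Measure (T2 × T2))
      (volume : Measure (Ci × (Ci × T2))) :=
    measurePreserving_prodAssoc (volume : Measure Ci) (volume : Measure Ci) (volume : Measure T2)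
  have h2 : MeasurePreserving (fun w : Ci × T2 => ((w.1, w.2.1), w.2.2)) (volume : Measure (Ci × T2))
      (volume : Measure (T2 × Ci)) :=
    (measurePreserving_prodAssoc (volume : Measure Ci) (volume : Measure Ci) (volume : Measure Ci)).symm
  have h3 : MeasurePreserving (fun w : T2 => (w.2, w.1)) (volume : Measure T2) (volume : Measure T2) :=
    Measure.measurePreserving_swap
  have h4 : MeasurePreserving (fun w : T2 × Ci => ((w.1.2, w.1.1), w.2)) (volume : Measure (T2 × Ci))
      (volume : Measure (T2 × Ci)) := h3.prod (MeasurePreserving.id _)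
  have h5 : MeasurePreserving (fun w : Ci × (Ci × T2) => (w.1, ((w.2.2.1, w.2.1), w.2.2.2)))
      (volume : Measure (Ci × (Ci × T2))) (volume : Measure (Ci × (T2 × Ci))) :=
    (MeasurePreserving.id _).prod (h4.comp h2)
  have h6 : MeasurePreserving (fun w : Ci × (T2 × Ci) => (w.2, w.1))
      (volume : Measure (Ci × (T2 × Ci))) (volume : Measure ((T2 × Ci) × Ci)) :=
    Measure.measurePreserving_swap
  have h7 : MeasurePreserving (fun w : (T2 × Ci) × Ci => (w.1.1, (w.1.2, w.2)))
      (volume : Measure ((T2 × Ci) × Ci)) (volume : Measure (T2 × T2)) :=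
    measurePreserving_prodAssoc (volume : Measure T2) (volume : Measure Ci) (volume : Measure Ci)
  exact h7.comp (h6.comp (h5.comp h1))

omit [DecidableEq ι] in
/-- change of the order of integration -/
lemma pm_int {G : (ι → ℝ) × (T2 × T2) → ℝ≥0∞} (hG : Measurable G) :
    ∫⁻ z : T2, ∫⁻ ω, (∫⁻ w : T2, G (ω, ((w.1, z.2), (w.2, z.1)))) ∂(law ι) =
      ∫⁻ p, G p ∂((law ι).prod (volume : Measure (T2 × T2))) := by
  have h1 : Measurable fun q : T2 × ((ι → ℝ) × T2) => G (q.2.1, ((q.2.2.1, q.1.2), (q.2.2.2, q.1.1))) := by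
    apply hG.comp
    fun_prop
  have h2 : Measurable fun q : T2 × (ι → ℝ) => ∫⁻ w : T2, G (q.2, ((w.1, q.1.2), (w.2, q.1.1))) := by
    have h3 : Measurable fun r : (T2 × (ι → ℝ)) × T2 => G (r.1.2, ((r.2.1, r.1.1.2), (r.2.2, r.1.1.1))) := by
      apply hG.comp
      fun_prop
    exact h3.lintegral_prod_right'
  rw [lintegral_lintegral_swap h2.aemeasurable, lintegral_prod _ hG.aemeasurable]
  refine lintegral_congr fun ω => ?_
  have h4 : Measurable fun w : T2 × T2 => G (ω, w) := hG.comp (measurable_const.prodMk measurable_id)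
  rw [← pm_mp.lintegral_comp h4]
  exact (lintegral_prod (μ := (volume : Measure T2)) (ν := (volume : Measure T2)) (fun w : T2 × T2 => G (ω, pm w))
    (h4.comp pm_mp.measurable).aemeasurable).symm

/-- the double kick -/
theorem dec (hK : K.Ok B s) (l : ℕ) {S' : Set ((ι → ℝ) × (T2 × T2))} (hS : MeasurableSet S')
    (hsep : ∀ (ω : ι → ℝ) (α β : T2), (ω, (α, β)) ∈ S' → 2 / (NN l : ℝ) ≤ dist α.2 β.2)
    (h1 : ∀ (ω : ι → ℝ) (α β : T2) (u : ℝ), (ω, (α, β)) ∈ S' →
      (Function.update ω (K.idx l (K.cel l α.2)) u, (α, β)) ∈ S')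
    (h2 : ∀ (ω : ι → ℝ) (α β : T2) (u : ℝ), (ω, (α, β)) ∈ S' →
      (Function.update ω (K.idx l (K.cel l β.2)) u, (α, β)) ∈ S') :
    mu ι {p | (p.1, (tw K p.1 p.2.swap, tw K p.1 p.2)) ∈ S'} ≤
      dn K l ^ 2 * ((law ι).prod (volume : Measure (T2 × T2))) S' := by
  obtain ⟨G, hGd⟩ : ∃ G : (ι → ℝ) × (T2 × T2) → ℝ≥0∞, G = S'.indicator 1 := ⟨_, rfl⟩
  have hG : Measurable G := by rw [hGd]; exact measurable_one.indicator hS
  have hm : Measurable fun p : (ι → ℝ) × T2 => (p.1, (tw K p.1 p.2.swap, tw K p.1 p.2)) := by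
    have e1 : Measurable fun p : (ι → ℝ) × T2 => (p.1, p.2.swap) :=
      measurable_fst.prodMk (measurable_swap.comp measurable_snd)
    exact measurable_fst.prodMk (((meas_tw hK).comp e1).prodMk (meas_tw hK))
  have hpre : MeasurableSet {p : (ι → ℝ) × T2 | (p.1, (tw K p.1 p.2.swap, tw K p.1 p.2)) ∈ S'} := hm hS
  have hA : K.amp l ≠ 0 := hK.amp_ne l
  -- the main estimate for a fixed pair
  have key : ∀ z : T2, ∫⁻ ω, G (ω, (tw K ω z.swap, tw K ω z)) ∂(law ι) ≤
      dn K l ^ 2 * ∫⁻ ω, (∫⁻ w : T2, G (ω, ((w.1, z.2), (w.2, z.1)))) ∂(law ι) := by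
    intro z
    by_cases hd : 2 / (NN l : ℝ) ≤ dist z.2 z.1
    swap
    · have h0 : ∀ ω, G (ω, (tw K ω z.swap, tw K ω z)) = 0 := by
        intro ω
        rw [hGd]
        apply indicator_of_notMem
        intro h
        have h3 := hsep ω (tw K ω z.swap) (tw K ω z) h
        rw [tw_snd, tw_snd] at h3
        exact hd h3
      simp only [h0, lintegral_zero]
      exact zero_le
    obtain ⟨i, hi⟩ : ∃ i, i = K.idx l (K.cel l z.2) := ⟨_, rfl⟩
    obtain ⟨j, hj⟩ : ∃ j, j = K.idx l (K.cel l z.1) := ⟨_, rfl⟩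
    have hij : i ≠ j := by rw [hi, hj]; exact hK.ne l _ _ hd
    have hoff1 : ∀ (ω : ι → ℝ) (u : ℝ), K.F (Function.update ω i u) z.1 = K.F ω z.1 := by
      intro ω u; rw [hi]; exact hK.off l ω u _ _ hd
    have hoff2 : ∀ (ω : ι → ℝ) (u : ℝ), K.F (Function.update ω j u) z.2 = K.F ω z.2 := by
      intro ω u; rw [hj]; exact hK.off l ω u _ _ (by rwa [dist_comm])
    have hon1 : ∀ (ω : ι → ℝ) (u : ℝ), K.F (Function.update ω i u) z.2 =
        K.F (Function.update ω i 0) z.2 + ((K.amp l * cl u : ℝ) : Ci) := by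
      intro ω u; rw [hi]; exact hK.on l ω u _
    have hon2 : ∀ (ω : ι → ℝ) (u : ℝ), K.F (Function.update ω j u) z.1 =
        K.F (Function.update ω j 0) z.1 + ((K.amp l * cl u : ℝ) : Ci) := by
      intro ω u; rw [hj]; exact hK.on l ω u _
    -- the function of the noise and the two new positions
    obtain ⟨f, hfd⟩ : ∃ f : (ι → ℝ) → Ci → Ci → ℝ≥0∞, f = fun ω a b => G (ω, ((a, z.2), (b, z.1))) := ⟨_, rfl⟩
    have hinv1 : ∀ (ω : ι → ℝ) (u : ℝ) (a b : Ci), f (Function.update ω i u) a b = f ω a b := by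
      intro ω u a b
      have e1 : ((Function.update ω i u, ((a, z.2), (b, z.1))) ∈ S') ↔ ((ω, ((a, z.2), (b, z.1))) ∈ S') := by
        constructor
        · intro h
          have h3 := h1 _ _ _ (ω i) h
          rw [← hi, Function.update_idem, Function.update_eq_self] at h3
          exact h3
        · intro h
          have h3 := h1 _ _ _ u h
          rw [← hi] at h3
          exact h3
      rw [hfd]
      show G _ = G _
      rw [hGd]
      by_cases h : (ω, ((a, z.2), (b, z.1))) ∈ S'
      · rw [indicator_of_mem h, indicator_of_mem (e1.2 h)]; rfl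
      · rw [indicator_of_notMem h, indicator_of_notMem (fun h' => h (e1.1 h'))]
    have hinv2 : ∀ (ω : ι → ℝ) (u : ℝ) (a b : Ci), f (Function.update ω j u) a b = f ω a b := by
      intro ω u a b
      have e1 : ((Function.update ω j u, ((a, z.2), (b, z.1))) ∈ S') ↔ ((ω, ((a, z.2), (b, z.1))) ∈ S') := by
        constructor
        · intro h
          have h3 := h2 _ _ _ (ω j) h
          rw [← hj, Function.update_idem, Function.update_eq_self] at h3
          exact h3
        · intro h
          have h3 := h2 _ _ _ u h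
          rw [← hj] at h3
          exact h3
      rw [hfd]
      show G _ = G _
      rw [hGd]
      by_cases h : (ω, ((a, z.2), (b, z.1))) ∈ S'
      · rw [indicator_of_mem h, indicator_of_mem (e1.2 h)]; rfl
      · rw [indicator_of_notMem h, indicator_of_notMem (fun h' => h (e1.1 h'))]
    have hfm : Measurable fun q : (ι → ℝ) × (Ci × Ci) => f q.1 q.2.1 q.2.2 := by
      rw [hfd]
      apply hG.comp
      fun_prop
    have hH : Measurable fun ω => G (ω, (tw K ω z.swap, tw K ω z)) :=
      (hG.comp hm).comp (measurable_id.prodMk measurable_const)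
    rw [res2 i j hH, ← lintegral_const_mul' _ _ (by unfold dn; exact ENNReal.pow_ne_top ENNReal.ofReal_ne_top)]
    refine lintegral_mono fun ω => ?_
    obtain ⟨g1, hg1⟩ : ∃ g1, g1 = z.2 + z.2 - z.1 + K.F (Function.update ω i 0) z.2 := ⟨_, rfl⟩
    obtain ⟨g2, hg2⟩ : ∃ g2, g2 = z.1 + z.1 - z.2 + K.F (Function.update ω j 0) z.1 := ⟨_, rfl⟩
    have hval : ∀ u v : ℝ, G (Function.update (Function.update ω i u) j v,
        (tw K (Function.update (Function.update ω i u) j v) z.swap,
          tw K (Function.update (Function.update ω i u) j v) z)) =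
        f ω (g1 + ((K.amp l * cl u : ℝ) : Ci)) (g2 + ((K.amp l * cl v : ℝ) : Ci)) := by
      intro u v
      have e1 : tw K (Function.update (Function.update ω i u) j v) z.swap =
          (g1 + ((K.amp l * cl u : ℝ) : Ci), z.2) := by
        refine Prod.ext ?_ rfl
        show z.2 + z.2 - z.1 + K.F (Function.update (Function.update ω i u) j v) z.2 = _
        rw [hoff2, hon1, ← add_assoc, hg1]
      have e2 : tw K (Function.update (Function.update ω i u) j v) z =
          (g2 + ((K.amp l * cl v : ℝ) : Ci), z.1) := by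
        refine Prod.ext ?_ rfl
        show z.1 + z.1 - z.2 + K.F (Function.update (Function.update ω i u) j v) z.1 = _
        rw [hon2, Function.update_comm hij, hoff1, ← add_assoc, hg2]
      rw [e1, e2]
      have e3 : G (Function.update (Function.update ω i u) j v,
          ((g1 + ((K.amp l * cl u : ℝ) : Ci), z.2), (g2 + ((K.amp l * cl v : ℝ) : Ci), z.1))) =
          f (Function.update (Function.update ω i u) j v) (g1 + ((K.amp l * cl u : ℝ) : Ci))
            (g2 + ((K.amp l * cl v : ℝ) : Ci)) := by rw [hfd]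
      rw [e3, hinv2, hinv1]
    have hfa : ∀ a, Measurable fun b => f ω a b := fun a =>
      hfm.comp (measurable_const.prodMk (measurable_const.prodMk measurable_id))
    have hfi : Measurable fun a => ∫⁻ b, f ω a b := by
      have h3 : Measurable fun q : Ci × Ci => f ω q.1 q.2 := hfm.comp (measurable_const.prodMk measurable_id)
      exact h3.lintegral_prod_right'
    calc ∫⁻ u, ∫⁻ v, G (Function.update (Function.update ω i u) j v,
        (tw K (Function.update (Function.update ω i u) j v) z.swap,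
          tw K (Function.update (Function.update ω i u) j v) z)) ∂uu ∂uu
        = ∫⁻ u, ∫⁻ v, f ω (g1 + ((K.amp l * cl u : ℝ) : Ci)) (g2 + ((K.amp l * cl v : ℝ) : Ci)) ∂uu ∂uu := by
          simp only [hval]
      _ ≤ ∫⁻ u, dn K l * (∫⁻ b, f ω (g1 + ((K.amp l * cl u : ℝ) : Ci)) b) ∂uu :=
          lintegral_mono fun u => rand' hA g2 (hfa _)
      _ = dn K l * ∫⁻ u, (∫⁻ b, f ω (g1 + ((K.amp l * cl u : ℝ) : Ci)) b) ∂uu :=
          lintegral_const_mul' _ _ ENNReal.ofReal_ne_top
      _ ≤ dn K l * (dn K l * ∫⁻ a, ∫⁻ b, f ω a b) := by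
          gcongr
          exact rand' hA g1 hfi
      _ = dn K l ^ 2 * ∫⁻ w : T2, G (ω, ((w.1, z.2), (w.2, z.1))) := by
          rw [← mul_assoc, ← sq]
          congr 1
          have h3 : Measurable fun q : T2 => f ω q.1 q.2 := hfm.comp (measurable_const.prodMk measurable_id)
          rw [Measure.volume_eq_prod]
          have h4 := lintegral_prod (μ := (volume : Measure Ci)) (ν := (volume : Measure Ci))
            (fun q : T2 => f ω q.1 q.2) h3.aemeasurable
          rw [← h4, hfd]
  calc mu ι {p | (p.1, (tw K p.1 p.2.swap, tw K p.1 p.2)) ∈ S'}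
      = ∫⁻ p, G (p.1, (tw K p.1 p.2.swap, tw K p.1 p.2)) ∂(mu ι) := by
        rw [← lintegral_indicator_one hpre, hGd]
        rfl
    _ = ∫⁻ z : T2, ∫⁻ ω, G (ω, (tw K ω z.swap, tw K ω z)) ∂(law ι) := by
        rw [mu]
        exact lintegral_prod_symm (fun p : (ι → ℝ) × T2 => G (p.1, (tw K p.1 p.2.swap, tw K p.1 p.2)))
          (hG.comp hm).aemeasurable
    _ ≤ ∫⁻ z : T2, dn K l ^ 2 * ∫⁻ ω, (∫⁻ w : T2, G (ω, ((w.1, z.2), (w.2, z.1)))) ∂(law ι) :=
        lintegral_mono key
    _ = dn K l ^ 2 * ∫⁻ z : T2, ∫⁻ ω, (∫⁻ w : T2, G (ω, ((w.1, z.2), (w.2, z.1)))) ∂(law ι) :=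
        lintegral_const_mul' _ _ (by unfold dn; exact ENNReal.pow_ne_top ENNReal.ofReal_ne_top)
    _ = dn K l ^ 2 * ((law ι).prod (volume : Measure (T2 × T2))) S' := by
        rw [pm_int hG, hGd, lintegral_indicator_one hS]

end Pool.Agent.Helper18.PV
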